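import Pool.Agent.Helper67.DO.StmtsD

/-!
# MP_d07457_gt, module D3: composition, inversion and compactness of the levels
-/

namespace Pool.Agent.Helper67.DO

open scoped BigOperators Real
open MeasureTheory

noncomputable section

theorem d3_isOpen_St (r : ℝ) : IsOpen (St r) :=
  isOpen_lt (continuous_abs.comp Complex.continuous_im) continuous_const

theorem d3_convex_St (r : ℝ) : Convex ℝ (St r) := by
  have h1 : St r = {z : ℂ | z.im < r} ∩ {z : ℂ | -r < z.im} := by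
    ext z
    simp only [St, Set.mem_ofPred_eq, Set.mem_inter_iff, abs_lt]
    exact and_comm
  rw [h1]
  exact (convex_halfSpace_im_lt r).inter (convex_halfSpace_im_gt (-r))

theorem d3_real_mem {r : ℝ} (hr : 0 < r) (x : ℝ) : (x : ℂ) ∈ St r := by
  simp [St, hr]

theorem d3_norm_exp (l : ℤ) (x t : ℝ) :
    ‖Complex.exp (-(2 * π * Complex.I * l * ((x : ℂ) + t * Complex.I)))‖ = Real.exp (2 * π * l * t) := by
  rw [Complex.norm_exp]
  congr 1
  have : -(2 * π * Complex.I * l * ((x : ℂ) + t * Complex.I)) =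
      ((2 * π * l * t : ℝ) : ℂ) + ((-(2 * π * l * x) : ℝ) : ℂ) * Complex.I := by
    push_cast
    linear_combination (-(2 * (π : ℂ) * l * t)) * Complex.I_sq
  rw [this]
  simp

/-- contour shift -/
theorem d3_shift {h : ℂ → ℂ} {r B : ℝ} (hd : DifferentiableOn ℂ h (St r))
    (hp : ∀ z ∈ St r, h (z + 1) = h z) (hb : ∀ z ∈ St r, ‖h z‖ ≤ B) (l : ℤ) (y : ℝ) (hy : 0 ≤ y)
    (hyr : y < r) :
    ‖∫ x in (0 : ℝ)..1, h x * Complex.exp (-(2 * π * Complex.I * l * x))‖
      ≤ B * Real.exp (-(2 * π * |(l : ℝ)| * y)) := by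
  set g : ℂ → ℂ := fun z => h z * Complex.exp (-(2 * π * Complex.I * l * z)) with hg
  obtain ⟨t, ht1, ht2⟩ : ∃ t : ℝ, |t| = y ∧ (l : ℝ) * t = -(|(l : ℝ)| * y) := by
    rcases le_total 0 (l : ℝ) with h0 | h0
    · exact ⟨-y, by rw [abs_neg, abs_of_nonneg hy], by rw [abs_of_nonneg h0]; ring⟩
    · exact ⟨y, abs_of_nonneg hy, by rw [abs_of_nonpos h0]; ring⟩
  have hstrip : ∀ a b : ℝ, |b| ≤ y → ((a : ℂ) + b * Complex.I) ∈ St r := by
    intro a b hb'
    simp only [St, Set.mem_ofPred_eq, Complex.add_im, Complex.ofReal_im, Complex.mul_im,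
      Complex.ofReal_re, Complex.I_im, Complex.I_re, mul_one, mul_zero, zero_add, add_zero]
    linarith
  have hgd : DifferentiableOn ℂ g (Set.uIcc (0 : ℂ).re ((1 : ℂ) + t * Complex.I).re ×ℂ
      Set.uIcc (0 : ℂ).im ((1 : ℂ) + t * Complex.I).im) := by
    have h1 : DifferentiableOn ℂ g (St r) := by
      refine hd.mul ?_
      exact (Complex.differentiable_exp.comp (by fun_prop)).differentiableOn
    refine h1.mono ?_
    intro z hz
    rw [Complex.mem_reProdIm] at hz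
    have h2 := hz.2
    simp only [Complex.zero_im, Complex.add_im, Complex.one_im, Complex.mul_im, Complex.ofReal_re,
      Complex.I_im, mul_one, Complex.ofReal_im, Complex.I_re, mul_zero, add_zero, zero_add] at h2
    have h3 : |z.im - 0| ≤ |t - 0| := Set.abs_sub_left_of_mem_uIcc h2
    rw [sub_zero, sub_zero, ht1] at h3
    exact lt_of_le_of_lt h3 hyr
  have key := Complex.integral_boundary_rect_eq_zero_of_differentiableOn g 0 (1 + t * Complex.I) hgd
  simp only [Complex.zero_re, Complex.zero_im, Complex.add_re, Complex.one_re, Complex.mul_re,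
    Complex.ofReal_re, Complex.I_re, mul_zero, Complex.ofReal_im, Complex.I_im, mul_one, sub_self,
    add_zero, Complex.add_im, Complex.one_im, Complex.mul_im, zero_add, Complex.ofReal_zero,
    zero_mul, Complex.ofReal_one] at key
  have hvert : (∫ s in (0 : ℝ)..t, g (1 + s * Complex.I)) = ∫ s in (0 : ℝ)..t, g (s * Complex.I) := by
    refine intervalIntegral.integral_congr ?_
    intro s hs
    have h3 : |s - 0| ≤ |t - 0| := Set.abs_sub_left_of_mem_uIcc hs
    rw [sub_zero, sub_zero, ht1] at h3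
    have h4 := hp _ (hstrip 0 s h3)
    simp only [Complex.ofReal_zero, zero_add] at h4
    have h5 : Complex.exp (-(2 * π * Complex.I * l * (1 + s * Complex.I)))
        = Complex.exp (-(2 * π * Complex.I * l * (s * Complex.I))) := by
      rw [Complex.exp_eq_exp_iff_exists_int]
      exact ⟨-l, by push_cast; ring⟩
    simp only [hg]
    rw [h5, add_comm (1 : ℂ), h4]
  rw [hvert] at key
  have hmain : (∫ x in (0 : ℝ)..1, g x) = ∫ x in (0 : ℝ)..1, g (x + t * Complex.I) := by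
    have : (∫ x in (0 : ℝ)..1, g x) - ∫ x in (0 : ℝ)..1, g (x + t * Complex.I) = 0 := by
      linear_combination key
    exact sub_eq_zero.1 this
  have hgoal : (∫ x in (0 : ℝ)..1, h x * Complex.exp (-(2 * π * Complex.I * l * x))) =
      ∫ x in (0 : ℝ)..1, g x := rfl
  rw [hgoal, hmain]
  have hbd : ∀ x ∈ Set.uIoc (0 : ℝ) 1, ‖g (x + t * Complex.I)‖ ≤
      B * Real.exp (-(2 * π * |(l : ℝ)| * y)) := by
    intro x _
    simp only [hg]
    rw [norm_mul, d3_norm_exp]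
    have h1 : (2 * π * l * t : ℝ) = -(2 * π * |(l : ℝ)| * y) := by
      linear_combination (2 * π) * ht2
    rw [h1]
    exact mul_le_mul_of_nonneg_right (hb _ (hstrip x t ht1.le)) (Real.exp_pos _).le
  have := intervalIntegral.norm_integral_le_of_norm_le_const hbd
  simpa using this

theorem d3_lift_osc {Φ : ℝ → ℝ} (h : IsLift Φ) (x : ℝ) : |Φ x - x - Φ 0| ≤ 1 := by
  have h1 := h.perInt ⌊x⌋ (Int.fract x)
  have h2 : Int.fract x + (⌊x⌋ : ℝ) = x := Int.fract_add_floor x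
  rw [h2] at h1
  have h3 := Int.fract_nonneg x
  have h4 := (Int.fract_lt_one x).le
  have h5 : Φ 0 ≤ Φ (Int.fract x) := h.mono.monotone h3
  have h6 : Φ (Int.fract x) ≤ Φ 1 := h.mono.monotone h4
  have h7 : Φ 1 = Φ 0 + 1 := by
    have := h.per 0
    rwa [zero_add] at this
  rw [abs_le]
  constructor <;> linarith

theorem d3_int_exp {l : ℤ} (hl : l ≠ 0) :
    ∫ x in (0 : ℝ)..1, Complex.exp (-(2 * π * Complex.I * l * x)) = 0 := by
  have hc : -(2 * π * Complex.I * l) ≠ 0 := by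
    have : (l : ℂ) ≠ 0 := Int.cast_ne_zero.2 hl
    simp [Real.pi_ne_zero, Complex.I_ne_zero, hl]
  have h1 := integral_exp_mul_complex (a := 0) (b := 1) hc
  have h2 : (∫ x in (0 : ℝ)..1, Complex.exp (-(2 * π * Complex.I * l * x)))
      = ∫ x in (0 : ℝ)..1, Complex.exp (-(2 * π * Complex.I * l) * x) := by
    refine intervalIntegral.integral_congr fun x _ => ?_
    congr 1
    ring
  rw [h2, h1]
  have h3 : Complex.exp (-(2 * π * Complex.I * l) * (1 : ℝ)) = Complex.exp (-(2 * π * Complex.I * l) * (0 : ℝ)) := by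
    rw [Complex.exp_eq_exp_iff_exists_int]
    exact ⟨-l, by push_cast; ring⟩
  rw [h3, sub_self, zero_div]

theorem d3_crit {r L c : ℝ} (hr : 0 < r) (hc : 0 < c) : ∃ k : ℕ, 1 ≤ k ∧
    ∀ (Φ : ℝ → ℝ) (G : ℂ → ℂ), IsLift Φ → DifferentiableOn ℂ G (St r) →
      (∀ x : ℝ, G x = (Φ x : ℂ)) → (∀ z ∈ St r, G (z + 1) = G z + 1) →
      (∀ z ∈ St r, ‖G z - G z.re‖ ≤ L) → (∀ x, c ≤ deriv Φ x) → Φ ∈ AA k := by
  obtain ⟨k, hk⟩ := exists_nat_gt (max (max (L + 1 + r) (2 / r)) (max (1 / c) 1))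
  have hk1 : L + 1 + r < k := lt_of_le_of_lt ((le_max_left _ _).trans (le_max_left _ _)) hk
  have hk2 : 2 / r < k := lt_of_le_of_lt ((le_max_right _ _).trans (le_max_left _ _)) hk
  have hk3 : 1 / c < k := lt_of_le_of_lt ((le_max_left _ _).trans (le_max_right _ _)) hk
  have hk4 : (1 : ℝ) < k := lt_of_le_of_lt ((le_max_right _ _).trans (le_max_right _ _)) hk
  have hk0 : (0 : ℝ) < k := by linarith
  refine ⟨k, by exact_mod_cast hk4.le, ?_⟩
  intro Φ G hΦ hG hreal hper hL hder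
  refine ⟨hΦ, ?_, ?_⟩
  · intro l hl
    set h : ℂ → ℂ := fun z => G z - z - Φ 0 with hh
    have hd : DifferentiableOn ℂ h (St r) := (hG.sub differentiableOn_id).sub (differentiableOn_const _)
    have hp : ∀ z ∈ St r, h (z + 1) = h z := by
      intro z hz
      simp only [hh]
      rw [hper z hz]
      ring
    have hb : ∀ z ∈ St r, ‖h z‖ ≤ L + 1 + r := by
      intro z hz
      have e1 : h z = (G z - G z.re) + ((Φ z.re - z.re - Φ 0 : ℝ) : ℂ) + (z.re - z) := by
        simp only [hh]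
        rw [hreal]
        push_cast
        ring
      have e2 : ‖((z.re : ℂ) - z)‖ ≤ r := by
        have : (z.re : ℂ) - z = ((-z.im : ℝ) : ℂ) * Complex.I := by
          apply Complex.ext <;> simp
        rw [this, norm_mul, Complex.norm_I, mul_one, Complex.norm_real, norm_neg, Real.norm_eq_abs]
        exact le_of_lt hz
      have e3 : ‖((Φ z.re - z.re - Φ 0 : ℝ) : ℂ)‖ ≤ 1 := by
        rw [Complex.norm_real, Real.norm_eq_abs]
        exact d3_lift_osc hΦ _
      rw [e1]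
      calc ‖(G z - G z.re) + ((Φ z.re - z.re - Φ 0 : ℝ) : ℂ) + (z.re - z)‖
          ≤ ‖(G z - G z.re) + ((Φ z.re - z.re - Φ 0 : ℝ) : ℂ)‖ + ‖((z.re : ℂ) - z)‖ := norm_add_le _ _
        _ ≤ (‖G z - G z.re‖ + ‖((Φ z.re - z.re - Φ 0 : ℝ) : ℂ)‖) + ‖((z.re : ℂ) - z)‖ := by
            gcongr
            exact norm_add_le _ _
        _ ≤ L + 1 + r := by
            have := hL z hz
            linarith
    have hkr : (1 : ℝ) / k < r := by
      rw [div_lt_iff₀ hk0]
      rw [div_lt_iff₀ hr] at hk2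
      nlinarith
    have hs := d3_shift hd hp hb l (1 / k) (by positivity) hkr
    have heq : fco (fun x => Φ x - x) l = ∫ x in (0 : ℝ)..1, h x * Complex.exp (-(2 * π * Complex.I * l * x)) := by
      have hcont : Continuous fun x : ℝ => Complex.exp (-(2 * π * Complex.I * l * x)) :=
        Complex.continuous_exp.comp (by fun_prop)
      have hc1 : Continuous fun x : ℝ => ((Φ x - x : ℝ) : ℂ) :=
        Complex.continuous_ofReal.comp (hΦ.cont.sub continuous_id)
      have e1 : (∫ x in (0 : ℝ)..1, h x * Complex.exp (-(2 * π * Complex.I * l * x)))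
          = (∫ x in (0 : ℝ)..1, (((Φ x - x : ℝ) : ℂ) * Complex.exp (-(2 * π * Complex.I * l * x))
            - (Φ 0 : ℂ) * Complex.exp (-(2 * π * Complex.I * l * x)))) := by
        refine intervalIntegral.integral_congr fun x _ => ?_
        simp only [hh]
        rw [hreal]
        push_cast
        ring
      have i1 : IntervalIntegrable (fun x : ℝ => ((Φ x - x : ℝ) : ℂ) *
          Complex.exp (-(2 * π * Complex.I * l * x))) volume 0 1 := (hc1.mul hcont).intervalIntegrable _ _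
      have i2 : IntervalIntegrable (fun x : ℝ => (Φ 0 : ℂ) *
          Complex.exp (-(2 * π * Complex.I * l * x))) volume 0 1 :=
        (continuous_const.mul hcont).intervalIntegrable _ _
      rw [e1, intervalIntegral.integral_sub i1 i2, intervalIntegral.integral_const_mul,
        d3_int_exp hl, mul_zero, sub_zero]
      rfl
    rw [heq]
    refine hs.trans ?_
    have e4 : -(2 * π * |(l : ℝ)| * (1 / k)) = -(2 * π * |(l : ℝ)| / k) := by ring
    rw [e4]
    exact mul_le_mul_of_nonneg_right hk1.le (Real.exp_pos _).le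
  · intro x
    refine le_trans ?_ (hder x)
    rw [div_le_iff₀ hk0]
    rw [div_lt_iff₀ hc] at hk3
    linarith

theorem d3_deriv_le {n : ℕ} {ρ s M : ℝ} (hI : Inv n ρ s M) {Φ : ℝ → ℝ} (hΦ : Φ ∈ AA n) (x : ℝ) :
    |deriv Φ x| ≤ M := by
  have hρ : 0 < 2 * ρ := by
    have := hI.pos
    linarith [this.1, this.2.1]
  have hx : (x : ℂ) ∈ St (2 * ρ) := d3_real_mem hρ x
  have h1 : HasDerivAt (cx Φ) (deriv (cx Φ) x) (x : ℂ) :=
    ((hI.hol Φ hΦ).differentiableAt ((d3_isOpen_St _).mem_nhds hx)).hasDerivAt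
  have h2 := h1.comp_ofReal
  have h3 : (fun y : ℝ => cx Φ y) = fun y : ℝ => (Φ y : ℂ) := funext (hI.real Φ hΦ)
  rw [h3] at h2
  have h4 := (hΦ.1.diff x).hasDerivAt.ofReal_comp
  have h5 := h4.unique h2
  have h6 := hI.lip Φ hΦ x hx
  rw [← h5, Complex.norm_real, Real.norm_eq_abs] at h6
  exact h6

theorem d3_cx_sub {n : ℕ} {ρ s M : ℝ} (hI : Inv n ρ s M) {Φ : ℝ → ℝ} (hΦ : Φ ∈ AA n) {z w : ℂ}
    (hz : z ∈ St (2 * ρ)) (hw : w ∈ St (2 * ρ)) : ‖cx Φ z - cx Φ w‖ ≤ M * ‖z - w‖ :=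
  Convex.norm_image_sub_le_of_norm_deriv_le
    (fun x hx => (hI.hol Φ hΦ).differentiableAt ((d3_isOpen_St _).mem_nhds hx))
    (fun x hx => hI.lip Φ hΦ x hx) (d3_convex_St _) hw hz

theorem d3_norm_sub_re (z : ℂ) : ‖z - (z.re : ℂ)‖ = |z.im| := by
  have : z - (z.re : ℂ) = ((z.im : ℝ) : ℂ) * Complex.I := by
    apply Complex.ext <;> simp
  rw [this, norm_mul, Complex.norm_I, mul_one, Complex.norm_real, Real.norm_eq_abs]

theorem d3_comp (h1 : ST_D1) : ∀ n m : ℕ, 1 ≤ n → 1 ≤ m → ∃ k : ℕ, 1 ≤ k ∧ ∀ Φ ∈ AA n, ∀ Ψ ∈ AA m,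
    (fun x => Φ (Ψ x)) ∈ AA k := by
  intro n m hn hm
  obtain ⟨ρ, s, M, hI⟩ := h1 n hn
  obtain ⟨ρ', s', M', hI'⟩ := h1 m hm
  obtain ⟨hs0, hsρ, hs1, hM⟩ := hI.pos
  obtain ⟨hs0', hsρ', hs1', hM'⟩ := hI'.pos
  have hρ : 0 < ρ := lt_of_lt_of_le hs0 hsρ
  have hρ' : 0 < ρ' := lt_of_lt_of_le hs0' hsρ'
  have hnR : (0 : ℝ) < n := by exact_mod_cast hn
  have hmR : (0 : ℝ) < m := by exact_mod_cast hm
  set r : ℝ := min (2 * ρ') (2 * ρ / M') with hr
  have hr0 : 0 < r := lt_min (by linarith) (by positivity)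
  obtain ⟨k, hk1, hk⟩ := d3_crit (r := r) (L := M * (M' * r)) (c := 1 / n * (1 / m)) hr0 (by positivity)
  refine ⟨k, hk1, ?_⟩
  intro Φ hΦ Ψ hΨ
  have hsub : ∀ z ∈ St r, z ∈ St (2 * ρ') := by
    intro z hz
    have hz' : |z.im| < r := hz
    exact lt_of_lt_of_le hz' (min_le_left _ _)
  have hmap : ∀ z ∈ St r, ‖cx Ψ z - cx Ψ z.re‖ ≤ M' * r := by
    intro z hz
    have := d3_cx_sub hI' hΨ (hsub z hz) (d3_real_mem (by linarith) z.re)
    rw [d3_norm_sub_re] at this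
    exact this.trans (mul_le_mul_of_nonneg_left (le_of_lt hz) hM'.le)
  have hmap2 : ∀ z ∈ St r, cx Ψ z ∈ St (2 * ρ) := by
    intro z hz
    have h2 := d3_cx_sub hI' hΨ (hsub z hz) (d3_real_mem (by linarith) z.re)
    rw [d3_norm_sub_re] at h2
    have h3 : |(cx Ψ z).im| = |(cx Ψ z - cx Ψ z.re).im| := by
      rw [hI'.real Ψ hΨ]
      simp
    have h4 := Complex.abs_im_le_norm (cx Ψ z - cx Ψ z.re)
    have h5 : M' * |z.im| < M' * r := mul_lt_mul_of_pos_left hz hM'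
    have h6 : M' * r ≤ 2 * ρ := by
      calc M' * r ≤ M' * (2 * ρ / M') := mul_le_mul_of_nonneg_left (min_le_right _ _) hM'.le
        _ = 2 * ρ := by field_simp
    show |(cx Ψ z).im| < 2 * ρ
    rw [h3]
    linarith
  refine hk (fun x => Φ (Ψ x)) (fun z => cx Φ (cx Ψ z)) (hΦ.1.comp hΨ.1) ?_ ?_ ?_ ?_ ?_
  · exact (hI.hol Φ hΦ).comp ((hI'.hol Ψ hΨ).mono hsub) hmap2
  · intro x
    rw [hI'.real Ψ hΨ, hI.real Φ hΦ]
  · intro z hz
    rw [hI'.per Ψ hΨ z (hsub z hz), hI.per Φ hΦ _ (hmap2 z hz)]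
  · intro z hz
    have h2 := d3_cx_sub hI hΦ (hmap2 z hz) (hmap2 z.re (d3_real_mem hr0 _))
    exact h2.trans (mul_le_mul_of_nonneg_left (hmap z hz) hM.le)
  · intro x
    have h2 := (hΦ.1.diff (Ψ x)).hasDerivAt.comp x (hΨ.1.diff x).hasDerivAt
    have e : deriv (fun x => Φ (Ψ x)) x = deriv Φ (Ψ x) * deriv Ψ x := h2.deriv
    rw [e]
    exact mul_le_mul (hΦ.2.2 _) (hΨ.2.2 _) (by positivity) (hΦ.1.pos _).le

theorem d3_inv (h1 : ST_D1) : ∀ n : ℕ, 1 ≤ n → ∃ k : ℕ, 1 ≤ k ∧ ∀ Φ ∈ AA n, ∃ Ψ ∈ AA k,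
    ∀ x, Φ (Ψ x) = x ∧ Ψ (Φ x) = x := by
  intro n hn
  obtain ⟨ρ, s, M, hI⟩ := h1 n hn
  obtain ⟨hs0, hsρ, hs1, hM⟩ := hI.pos
  have hρ : 0 < ρ := lt_of_lt_of_le hs0 hsρ
  obtain ⟨k, hk1, hk⟩ := d3_crit (r := s) (L := M * s) (c := 1 / M) hs0 (by positivity)
  refine ⟨k, hk1, ?_⟩
  intro Φ hΦ
  obtain ⟨Ψ, hΨ, hr, hl⟩ := hΦ.1.exists_inv
  have hreal : ∀ x : ℝ, cinv ρ Φ x = (Ψ x : ℂ) := by
    intro x
    have := hI.invreal Φ hΦ (Ψ x)
    rwa [hr] at this
  refine ⟨Ψ, hk Ψ (cinv ρ Φ) hΨ (hI.invhol Φ hΦ) hreal ?_ ?_ ?_, fun x => ⟨hr x, hl x⟩⟩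
  · intro z hz
    exact (hI.inv Φ hΦ z hz).2.2
  · intro z hz
    have ha := hI.inv Φ hΦ z hz
    have hb := hI.inv Φ hΦ z.re (d3_real_mem hs0 _)
    have hc := hI.inj Φ hΦ _ ha.1 _ hb.1
    rw [ha.2.1, hb.2.1, d3_norm_sub_re] at hc
    exact hc.trans (mul_le_mul_of_nonneg_left (le_of_lt hz) hM.le)
  · intro x
    have h2 := (hΦ.1.diff (Ψ x)).hasDerivAt.comp x (hΨ.diff x).hasDerivAt
    have h3 : HasDerivAt (Φ ∘ Ψ) 1 x := by
      have : (Φ ∘ Ψ) = fun x => x := funext hr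
      rw [this]
      exact hasDerivAt_id' x
    have h4 := h2.unique h3
    have h5 := d3_deriv_le hI hΦ (Ψ x)
    have h6 := hΨ.pos x
    rw [div_le_iff₀ hM, ← h4]
    rw [mul_comm]
    exact mul_le_mul_of_nonneg_left ((le_abs_self _).trans h5) h6.le

/-- levels are closed under uniform limits -/
theorem d3_limit (h1 : ST_D1) (h2 : ST_D2) {n : ℕ} (hn : 1 ≤ n) {g : ℕ → ℝ → ℝ} (hg : ∀ k, g k ∈ AA n)
    {Φ : ℝ → ℝ} (hlim : ∀ ε : ℝ, 0 < ε → ∃ k0 : ℕ, ∀ k, k0 ≤ k → ∀ x, |g k x - Φ x| ≤ ε) : Φ ∈ AA n := by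
  obtain ⟨ρ, s, M, hI⟩ := h1 n hn
  obtain ⟨hs0, hsρ, hs1, hM⟩ := hI.pos
  have hρ : 0 < 2 * ρ := by linarith
  have hnR : (0 : ℝ) < n := by exact_mod_cast hn
  have hpt : ∀ x, Filter.Tendsto (fun k => g k x) Filter.atTop (nhds (Φ x)) := by
    intro x
    rw [Metric.tendsto_atTop]
    intro ε hε
    obtain ⟨k0, hk0⟩ := hlim (ε / 2) (by linarith)
    refine ⟨k0, fun k hk => ?_⟩
    rw [Real.dist_eq]
    have := hk0 k hk x
    linarith
  have hper : ∀ x, Φ (x + 1) = Φ x + 1 := by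
    intro x
    refine tendsto_nhds_unique (hpt (x + 1)) ?_
    have : (fun k => g k (x + 1)) = fun k => g k x + 1 := funext fun k => (hg k).1.per x
    rw [this]
    exact (hpt x).add_const 1
  -- monotonicity
  have hgm : ∀ k, Monotone fun y => g k y - y / n := by
    intro k
    refine monotone_of_deriv_nonneg ((hg k).1.diff.sub (by fun_prop)) fun x => ?_
    have ha : HasDerivAt (fun y => g k y - y / n) (deriv (g k) x - 1 / n) x :=
      ((hg k).1.diff x).hasDerivAt.sub ((hasDerivAt_id' x).div_const _)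
    rw [ha.deriv]
    linarith [(hg k).2.2 x]
  have hΦm : Monotone fun y => Φ y - y / n := by
    intro x y hxy
    refine le_of_tendsto_of_tendsto' ((hpt x).sub_const (x / n)) ((hpt y).sub_const (y / n)) fun k => ?_
    exact hgm k hxy
  -- holomorphic extension of the limit
  set v : ℕ → ℝ → ℝ := fun k x => 1 * (g k x - (x + g k 0)) with hv
  have hvV : ∀ k, v k ∈ VV n 1 := by
    intro k
    refine ⟨⟨g k, hg k, fun x => x + g k 0, h2.2.2.2.1 n hn (g k 0), rfl⟩, ?_⟩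
    intro x
    have := d3_lift_osc (hg k).1 x
    have e : v k x = g k x - x - g k 0 := by
      simp only [hv]
      ring
    rw [e]
    exact this
  have hcau : ∀ ε : ℝ, 0 < ε → ∃ k0 : ℕ, ∀ k, k0 ≤ k → ∀ l, k0 ≤ l → ∀ z ∈ St (2 * ρ),
      ‖four (v k) z - four (v l) z‖ ≤ ε := by
    intro ε hε
    obtain ⟨δ, hδ, hst⟩ := hI.stab 1 ε hε
    obtain ⟨k0, hk0⟩ := hlim (δ / 4) (by linarith)
    refine ⟨k0, fun k hk l hl z hz => ?_⟩
    refine (hst (g 0) (hg 0) (g 0) (hg 0) (v k) (hvV k) (v l) (hvV l) (fun x => ?_) (fun x => ?_)).2 z hz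
    · rw [sub_self, abs_zero]
      exact hδ.le
    · have a1 := abs_le.1 (hk0 k hk x)
      have a2 := abs_le.1 (hk0 l hl x)
      have a3 := abs_le.1 (hk0 k hk 0)
      have a4 := abs_le.1 (hk0 l hl 0)
      simp only [hv]
      rw [abs_le]
      constructor <;> linarith [a1.1, a1.2, a2.1, a2.2, a3.1, a3.2, a4.1, a4.2]
  have hex : ∀ z, ∃ V : ℂ, z ∈ St (2 * ρ) → Filter.Tendsto (fun k => four (v k) z) Filter.atTop (nhds V) := by
    intro z
    by_cases hz : z ∈ St (2 * ρ)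
    · have hc : CauchySeq fun k => four (v k) z := by
        rw [Metric.cauchySeq_iff]
        intro ε hε
        obtain ⟨k0, hk0⟩ := hcau (ε / 2) (by linarith)
        refine ⟨k0, fun k hk l hl => ?_⟩
        rw [dist_eq_norm]
        have := hk0 k hk l hl z hz
        linarith
      obtain ⟨V, hV⟩ := cauchySeq_tendsto_of_complete hc
      exact ⟨V, fun _ => hV⟩
    · exact ⟨0, fun h => absurd h hz⟩
  choose V hV using hex
  have hunif : TendstoUniformlyOn (fun k => four (v k)) V Filter.atTop (St (2 * ρ)) := by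
    rw [Metric.tendstoUniformlyOn_iff]
    intro ε hε
    obtain ⟨k0, hk0⟩ := hcau (ε / 2) (by linarith)
    filter_upwards [Filter.eventually_ge_atTop k0] with k hk z hz
    rw [dist_comm, dist_eq_norm]
    have h3 : Filter.Tendsto (fun l => ‖four (v k) z - four (v l) z‖) Filter.atTop
        (nhds ‖four (v k) z - V z‖) := (tendsto_const_nhds.sub (hV z hz)).norm
    have h4 : ‖four (v k) z - V z‖ ≤ ε / 2 := by
      refine le_of_tendsto h3 ?_
      filter_upwards [Filter.eventually_ge_atTop k0] with l hl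
      exact hk0 k hk l hl z hz
    linarith
  have hVd : DifferentiableOn ℂ V (St (2 * ρ)) := by
    refine hunif.tendstoLocallyUniformlyOn.differentiableOn ?_ (d3_isOpen_St _)
    exact Filter.Eventually.of_forall fun k => hI.vhol 1 (v k) (hvV k)
  have hVr : ∀ x : ℝ, V x = ((Φ x - x - Φ 0 : ℝ) : ℂ) := by
    intro x
    refine tendsto_nhds_unique (hV x (d3_real_mem hρ x)) ?_
    have e : (fun k => four (v k) x) = fun k => ((g k x - x - g k 0 : ℝ) : ℂ) := by
      funext k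
      rw [hI.vreal 1 (v k) (hvV k) x]
      congr 1
      simp only [hv]
      ring
    rw [e]
    exact (Complex.continuous_ofReal.tendsto _).comp (((hpt x).sub_const x).sub (hpt 0))
  have han : ∀ x, AnalyticAt ℝ Φ x := by
    intro x
    have hVa : AnalyticAt ℂ V (x : ℂ) :=
      hVd.analyticAt ((d3_isOpen_St _).mem_nhds (d3_real_mem hρ x))
    have h3 := hVa.re_ofReal
    have h4 : (fun y : ℝ => (V y).re + (y + Φ 0)) = Φ := by
      funext y
      rw [hVr, Complex.ofReal_re]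
      ring
    rw [← h4]
    exact h3.add (analyticAt_id.add analyticAt_const)
  have hdiff : Differentiable ℝ Φ := fun x => (han x).differentiableAt
  have hder : ∀ x, 1 / (n : ℝ) ≤ deriv Φ x := by
    intro x
    have ha : HasDerivAt (fun y => Φ y - y / n) (deriv Φ x - 1 / n) x :=
      (hdiff x).hasDerivAt.sub ((hasDerivAt_id' x).div_const _)
    have hb : 0 ≤ deriv (fun y => Φ y - y / n) x := hΦm.deriv_nonneg
    rw [ha.deriv] at hb
    linarith
  have hlift : IsLift Φ := ⟨han, hper, fun x => lt_of_lt_of_le (by positivity) (hder x)⟩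
  refine ⟨hlift, ?_, hder⟩
  intro l hl
  refine le_of_forall_pos_le_add fun ε hε => ?_
  obtain ⟨k0, hk0⟩ := hlim ε hε
  have h3 := (hg k0).2.1 l hl
  have h4 : ‖fco (fun x => Φ x - x) l - fco (fun x => g k0 x - x) l‖ ≤ ε := by
    have hcont : Continuous fun x : ℝ => Complex.exp (-(2 * π * Complex.I * l * x)) :=
      Complex.continuous_exp.comp (by fun_prop)
    have hc1 : Continuous fun x : ℝ => ((Φ x - x : ℝ) : ℂ) :=
      Complex.continuous_ofReal.comp (hlift.cont.sub continuous_id)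
    have hc2 : Continuous fun x : ℝ => ((g k0 x - x : ℝ) : ℂ) :=
      Complex.continuous_ofReal.comp ((hg k0).1.cont.sub continuous_id)
    have i1 : IntervalIntegrable (fun x : ℝ => ((Φ x - x : ℝ) : ℂ) *
        Complex.exp (-(2 * π * Complex.I * l * x))) volume 0 1 := (hc1.mul hcont).intervalIntegrable _ _
    have i2 : IntervalIntegrable (fun x : ℝ => ((g k0 x - x : ℝ) : ℂ) *
        Complex.exp (-(2 * π * Complex.I * l * x))) volume 0 1 := (hc2.mul hcont).intervalIntegrable _ _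
    unfold fco
    rw [← intervalIntegral.integral_sub i1 i2]
    have hbd : ∀ x ∈ Set.uIoc (0 : ℝ) 1, ‖((Φ x - x : ℝ) : ℂ) * Complex.exp (-(2 * π * Complex.I * l * x))
        - ((g k0 x - x : ℝ) : ℂ) * Complex.exp (-(2 * π * Complex.I * l * x))‖ ≤ ε := by
      intro x _
      rw [← sub_mul, norm_mul]
      have e1 := d3_norm_exp l x 0
      rw [Complex.ofReal_zero, zero_mul, add_zero, mul_zero, Real.exp_zero] at e1
      rw [e1, mul_one, ← Complex.ofReal_sub, Complex.norm_real, Real.norm_eq_abs]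
      have e2 : Φ x - x - (g k0 x - x) = -(g k0 x - Φ x) := by ring
      rw [e2, abs_neg]
      exact hk0 k0 le_rfl x
    have := intervalIntegral.norm_integral_le_of_norm_le_const hbd
    simpa using this
  have h5 : ‖fco (fun x => Φ x - x) l‖ ≤ ‖fco (fun x => g k0 x - x) l‖ +
      ‖fco (fun x => Φ x - x) l - fco (fun x => g k0 x - x) l‖ := norm_le_insert' _ _
  linarith

theorem d3_compact (h1 : ST_D1) (h2 : ST_D2) : ∀ n : ℕ, 1 ≤ n → ∀ f : ℕ → ℝ → ℝ,
    (∀ k, f k ∈ AA n ∧ 0 ≤ f k 0 ∧ f k 0 ≤ 1) →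
    ∃ Φ ∈ AA n, ∃ φ : ℕ → ℕ, StrictMono φ ∧ ∀ ε : ℝ, 0 < ε → ∃ k0, ∀ k, k0 ≤ k → ∀ x,
      |f (φ k) x - Φ x| ≤ ε := by
  intro n hn f hf
  obtain ⟨ρ, s, M, hI⟩ := h1 n hn
  obtain ⟨hs0, hsρ, hs1, hM⟩ := hI.pos
  have hlip : ∀ k x y, |f k x - f k y| ≤ M * |x - y| := by
    intro k x y
    have := Convex.norm_image_sub_le_of_norm_deriv_le (f := f k) (C := M) (s := Set.univ) (x := y) (y := x)
      (fun z _ => (hf k).1.1.diff z) (fun z _ => by
        rw [Real.norm_eq_abs]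
        exact d3_deriv_le hI (hf k).1 z) convex_univ (Set.mem_univ _) (Set.mem_univ _)
    simpa [Real.norm_eq_abs] using this
  let F : ℕ → BoundedContinuousFunction (Set.Icc (0 : ℝ) 1) ℝ := fun k =>
    BoundedContinuousFunction.mkOfCompact ⟨fun x => f k x, (hf k).1.1.cont.comp continuous_subtype_val⟩
  have hF : ∀ k x, F k x = f k x := fun k x => rfl
  have hcomp : IsCompact (closure (Set.range F)) := by
    refine BoundedContinuousFunction.arzela_ascoli (Set.Icc (0 : ℝ) 2) isCompact_Icc _ ?_ ?_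
    · rintro g x ⟨k, rfl⟩
      rw [hF]
      have hm := (hf k).1.1.mono.monotone
      have a1 : f k 0 ≤ f k x := hm x.2.1
      have a2 : f k x ≤ f k 1 := hm x.2.2
      have a3 := (hf k).1.1.per 0
      rw [zero_add] at a3
      exact ⟨by linarith [(hf k).2.1], by linarith [(hf k).2.2]⟩
    · refine Metric.equicontinuous_of_continuity_modulus (fun t => M * t) ?_ _ ?_
      · have : Filter.Tendsto (fun t : ℝ => M * t) (nhds 0) (nhds (M * 0)) :=
          (continuous_const.mul continuous_id).tendsto 0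
        rwa [mul_zero] at this
      · rintro x y ⟨g, k, rfl⟩
        show dist (F k x) (F k y) ≤ M * dist x y
        rw [hF, hF, Real.dist_eq, Subtype.dist_eq, Real.dist_eq]
        exact hlip k x y
  obtain ⟨G, -, φ, hφ, hG⟩ := hcomp.tendsto_subseq (x := F) fun k => subset_closure ⟨k, rfl⟩
  have hfr : ∀ x : ℝ, Int.fract x ∈ Set.Icc (0 : ℝ) 1 := fun x => ⟨Int.fract_nonneg x, (Int.fract_lt_one x).le⟩
  let Φ : ℝ → ℝ := fun x => G ⟨Int.fract x, hfr x⟩ + ⌊x⌋
  have hclose : ∀ ε : ℝ, 0 < ε → ∃ k0 : ℕ, ∀ k, k0 ≤ k → ∀ x, |f (φ k) x - Φ x| ≤ ε := by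
    intro ε hε
    obtain ⟨k0, hk0⟩ := Metric.tendsto_atTop.1 hG ε hε
    refine ⟨k0, fun k hk x => ?_⟩
    have a1 := hk0 k hk
    have a2 : dist (F (φ k) ⟨Int.fract x, hfr x⟩) (G ⟨Int.fract x, hfr x⟩) ≤ dist ((F ∘ φ) k) G :=
      BoundedContinuousFunction.dist_coe_le_dist _
    rw [hF, Real.dist_eq] at a2
    have a3 : f (φ k) x = f (φ k) (Int.fract x) + ⌊x⌋ := by
      have := (hf (φ k)).1.1.perInt ⌊x⌋ (Int.fract x)
      rw [Int.fract_add_floor] at this
      exact this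
    have a4 : f (φ k) x - Φ x = f (φ k) (Int.fract x) - G ⟨Int.fract x, hfr x⟩ := by
      show f (φ k) x - (G ⟨Int.fract x, hfr x⟩ + ⌊x⌋) = _
      rw [a3]
      ring
    rw [a4]
    exact a2.trans a1.le
  exact ⟨Φ, d3_limit h1 h2 hn (fun k => (hf (φ k)).1) hclose, φ, hφ, hclose⟩

theorem st_D3 (h1 : ST_D1) (h2 : ST_D2) : ST_D3 := ⟨d3_comp h1, d3_inv h1, d3_compact h1 h2⟩

end

end Pool.Agent.Helper67.DO
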