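import Pool.Agent.Helper67.DO.BaseE

/-!
# MP_d07457_gt, module W5: the window operators
-/

namespace Pool.Agent.Helper67.DO

open scoped BigOperators Real

noncomputable section

/-! ### trigonometry -/

theorem w5_normSq_sin (u : ℂ) : ‖Complex.sin u‖ ^ 2 = Real.sin u.re ^ 2 + Real.sinh u.im ^ 2 := by
  have h1 : Complex.sin u = ((Real.sin u.re * Real.cosh u.im : ℝ) : ℂ) +
      ((Real.cos u.re * Real.sinh u.im : ℝ) : ℂ) * Complex.I := by
    rw [Complex.sin_eq]
    push_cast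
    ring
  rw [← Complex.normSq_eq_norm_sq, h1, Complex.normSq_add_mul_I]
  have h2 := Real.sin_sq_add_cos_sq u.re
  have h3 := Real.cosh_sq u.im
  rw [mul_pow, mul_pow, h3]
  linear_combination (Real.sinh u.im ^ 2) * h2

theorem w5_normSq_cos (u : ℂ) : ‖Complex.cos u‖ ^ 2 = Real.cos u.re ^ 2 + Real.sinh u.im ^ 2 := by
  have h1 : Complex.cos u = ((Real.cos u.re * Real.cosh u.im : ℝ) : ℂ) +
      ((-(Real.sin u.re * Real.sinh u.im) : ℝ) : ℂ) * Complex.I := by
    rw [Complex.cos_eq]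
    push_cast
    ring
  rw [← Complex.normSq_eq_norm_sq, h1, Complex.normSq_add_mul_I]
  have h2 := Real.sin_sq_add_cos_sq u.re
  have h3 := Real.cosh_sq u.im
  rw [mul_pow, neg_sq, mul_pow, h3]
  linear_combination (Real.sinh u.im ^ 2) * h2

theorem w5_pi_re (u : ℂ) : ((π : ℂ) * u).re = π * u.re := by simp

theorem w5_pi_im (u : ℂ) : ((π : ℂ) * u).im = π * u.im := by simp

theorem w5_cosh_mono {a b : ℝ} (h : |a| ≤ b) : Real.cosh a ≤ Real.cosh b := by
  rw [← Real.cosh_abs a]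
  exact Real.cosh_le_cosh.2 (by rw [abs_abs, abs_of_nonneg ((abs_nonneg a).trans h)]; exact h)

theorem w5_cos_le {u : ℂ} {H : ℝ} (h : |u.im| ≤ H) : ‖Complex.cos (π * u)‖ ≤ Real.cosh (π * H) := by
  have h1 := w5_normSq_cos (π * u)
  rw [w5_pi_re, w5_pi_im] at h1
  have h2 : Real.cosh (π * u.im) ≤ Real.cosh (π * H) := by
    apply w5_cosh_mono
    rw [abs_mul, abs_of_pos Real.pi_pos]
    exact mul_le_mul_of_nonneg_left h Real.pi_pos.le
  have h3 := Real.cosh_sq (π * u.im)
  have h4 := Real.sin_sq_add_cos_sq (π * u.re)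
  have h5 := Real.cosh_pos (π * u.im)
  have h6 := Real.cosh_pos (π * H)
  refine le_of_sq_le_sq ?_ h6.le
  nlinarith [sq_nonneg (Real.sin (π * u.re))]

theorem w5_sin_le {u : ℂ} {H : ℝ} (h : |u.im| ≤ H) : ‖Complex.sin (π * u)‖ ≤ Real.cosh (π * H) := by
  have h1 := w5_normSq_sin (π * u)
  rw [w5_pi_re, w5_pi_im] at h1
  have h2 : Real.cosh (π * u.im) ≤ Real.cosh (π * H) := by
    apply w5_cosh_mono
    rw [abs_mul, abs_of_pos Real.pi_pos]
    exact mul_le_mul_of_nonneg_left h Real.pi_pos.le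
  have h3 := Real.cosh_sq (π * u.im)
  have h4 := Real.sin_sq_add_cos_sq (π * u.re)
  have h5 := Real.cosh_pos (π * u.im)
  have h6 := Real.cosh_pos (π * H)
  refine le_of_sq_le_sq ?_ h6.le
  nlinarith [sq_nonneg (Real.cos (π * u.re))]

theorem w5_sin_ge_im {u : ℂ} {δ : ℝ} (hδ : 0 < δ) (h : δ ≤ |u.im|) : π * δ ≤ ‖Complex.sin (π * u)‖ := by
  have h1 := w5_normSq_sin (π * u)
  rw [w5_pi_re, w5_pi_im] at h1
  have h2 : π * δ ≤ |Real.sinh (π * u.im)| := by
    rw [Real.abs_sinh, abs_mul, abs_of_pos Real.pi_pos]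
    have h3 : π * δ ≤ π * |u.im| := mul_le_mul_of_nonneg_left h Real.pi_pos.le
    exact h3.trans (Real.self_le_sinh_iff.2 (by positivity))
  refine le_of_sq_le_sq ?_ (norm_nonneg _)
  rw [h1]
  have h4 : (π * δ) ^ 2 ≤ |Real.sinh (π * u.im)| ^ 2 := pow_le_pow_left₀ (by positivity) h2 2
  rw [sq_abs] at h4
  nlinarith [sq_nonneg (Real.sin (π * u.re))]

theorem w5_sin_ge_re {u : ℂ} {g : ℝ} (hg : 0 < g) (h : ∀ m : ℤ, g ≤ |u.re - m|) :
    2 * g ≤ ‖Complex.sin (π * u)‖ := by
  have h1 := w5_normSq_sin (π * u)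
  rw [w5_pi_re, w5_pi_im] at h1
  set m : ℤ := round u.re with hm
  have h2 := h m
  have h3 : |u.re - m| ≤ 1 / 2 := abs_sub_round u.re
  have h4 : |Real.sin (π * u.re)| = Real.sin (π * |u.re - m|) := by
    have e1 : π * u.re = π * (u.re - m) + m * π := by ring
    rw [e1, Real.sin_add_int_mul_pi, abs_mul, abs_zpow, abs_neg, abs_one, one_zpow, one_mul]
    rcases le_total 0 (u.re - m) with h0 | h0
    · rw [abs_of_nonneg h0] at h3 ⊢
      refine abs_of_nonneg (Real.sin_nonneg_of_nonneg_of_le_pi (by positivity) ?_)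
      nlinarith [Real.pi_pos]
    · rw [abs_of_nonpos h0] at h3 ⊢
      rw [← abs_neg, ← Real.sin_neg]
      have e2 : -(π * (u.re - m)) = π * -(u.re - m) := by ring
      rw [e2]
      refine abs_of_nonneg (Real.sin_nonneg_of_nonneg_of_le_pi ?_ ?_)
      · have : 0 ≤ -(u.re - m) := by linarith
        positivity
      · nlinarith [Real.pi_pos]
  have h5 : 2 * g ≤ |Real.sin (π * u.re)| := by
    rw [h4]
    have h6 := Real.mul_le_sin (x := π * |u.re - m|) (by positivity) (by nlinarith [Real.pi_pos])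
    have h7 : 2 / π * (π * |u.re - m|) = 2 * |u.re - m| := by
      field_simp
    rw [h7] at h6
    linarith
  refine le_of_sq_le_sq ?_ (norm_nonneg _)
  rw [h1]
  have h8 : (2 * g) ^ 2 ≤ |Real.sin (π * u.re)| ^ 2 := pow_le_pow_left₀ (by positivity) h5 2
  rw [sq_abs] at h8
  nlinarith [sq_nonneg (Real.sinh (π * u.im))]

theorem w5_kap_eq (u : ℂ) : kap u = Complex.cos (π * u) / Complex.sin (π * u) / (2 * Complex.I) := rfl

/-- the regular kernel `sin^2 (π(z-ζ)) kap(ζ-z)` -/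
def w5_reg (u : ℂ) : ℂ := -(Complex.sin (π * u) * Complex.cos (π * u)) / (2 * Complex.I)

theorem w5_snkap (z ζ : ℂ) : sn (z - ζ) * kap (ζ - z) = w5_reg (z - ζ) := by
  rw [w5_kap_eq, sn, w5_reg]
  have e1 : (π : ℂ) * (ζ - z) = -(π * (z - ζ)) := by ring
  rw [e1, Complex.cos_neg, Complex.sin_neg]
  by_cases h : Complex.sin (π * (z - ζ)) = 0
  · rw [h]
    simp
  · have hI := Complex.I_ne_zero
    field_simp

theorem w5_reg_le {u : ℂ} {H : ℝ} (h : |u.im| ≤ H) : ‖w5_reg u‖ ≤ Real.cosh (π * H) ^ 2 := by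
  have h1 := w5_sin_le h
  have h2 := w5_cos_le h
  have h3 : ‖(2 * Complex.I : ℂ)‖ = 2 := by simp
  rw [w5_reg, norm_div, norm_neg, norm_mul, h3, div_le_iff₀ two_pos]
  have h4 : ‖Complex.sin (π * u)‖ * ‖Complex.cos (π * u)‖ ≤ Real.cosh (π * H) * Real.cosh (π * H) :=
    mul_le_mul h1 h2 (norm_nonneg _) (Real.cosh_pos _).le
  nlinarith [Real.cosh_pos (π * H)]

theorem w5_kap_le {u : ℂ} {H c : ℝ} (hc : 0 < c) (h : |u.im| ≤ H) (hs : c ≤ ‖Complex.sin (π * u)‖) :
    ‖kap u‖ ≤ Real.cosh (π * H) / c := by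
  have h2 := w5_cos_le h
  have h3 : ‖(2 * Complex.I : ℂ)‖ = 2 := by simp
  have hs0 : 0 < ‖Complex.sin (π * u)‖ := lt_of_lt_of_le hc hs
  rw [w5_kap_eq, norm_div, norm_div, h3]
  have h4 : ‖Complex.cos (π * u)‖ / ‖Complex.sin (π * u)‖ ≤ Real.cosh (π * H) / c :=
    div_le_div₀ (Real.cosh_pos _).le h2 hc hs
  have h5 : 0 ≤ ‖Complex.cos (π * u)‖ / ‖Complex.sin (π * u)‖ := by positivity
  linarith

theorem w5_sn_per (u : ℂ) : sn (u + 1) = sn u := by
  rw [sn, sn, mul_add, mul_one, Complex.sin_add_pi, neg_sq]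

theorem w5_kap_per (u : ℂ) : kap (u - 1) = kap u := by
  rw [w5_kap_eq, w5_kap_eq, mul_sub, mul_one, Complex.cos_sub_pi, Complex.sin_sub_pi, neg_div_neg_eq]

/-! ### the contours -/

theorem w5_cP_US {N : ℕ} {P G : Set ℤ} {w' r σ h' : ℝ} (hN : 0 < N) (hs : Shape N P G) (hw' : 0 < w')
    (hr : w' < r) (hr4 : r < 1 / (4 * N)) (hσh : σ < h') (p : Pc N) {ζ : ℂ}
    (hζ : ζ ∈ cP N P G r σ p) : ζ ∈ US N P G w' h' := by
  have hNR : (0 : ℝ) < N := Nat.cast_pos.2 hN
  set e : ℝ := (N : ℝ)⁻¹ with he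
  have he0 : 0 < e := by positivity
  have hr4' : 4 * r < e := by
    have : 1 / (4 * (N : ℝ)) = e / 4 := by rw [he]; field_simp
    rw [this] at hr4
    linarith
  have hdiv : ∀ x : ℝ, x / N = x * e := fun x => div_eq_mul_inv x N
  have hle : ∀ a b : ℤ, a ≤ b → (a : ℝ) * e ≤ (b : ℝ) * e := fun a b hab =>
    mul_le_mul_of_nonneg_right (by exact_mod_cast hab) he0.le
  -- the two facts we need
  have main : ∀ (l : ℤ), |ζ.im| ≤ σ →
      (∀ m ∈ P, w' < |ζ.re - m * e|) → (∀ m ∈ G, ζ.re < m * e ∨ (m + 1) * e < ζ.re) →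
      ζ ∈ US N P G w' h' := by
    intro l him h1 h2
    refine ⟨lt_of_le_of_lt him hσh, ?_, ?_⟩
    · intro m hm
      rw [hdiv]
      exact h1 m hm
    · intro m hm
      rw [hdiv, hdiv]
      exact h2 m hm
  -- near the grid point `l`
  have near : ∀ (l : ℤ), |ζ.im| ≤ σ → |ζ.re - l * e| ≤ r → (l ∈ P → r ≤ |ζ.re - l * e|) →
      (l - 1 ∈ G → l * e < ζ.re) → (l ∈ G → ζ.re < l * e) → ζ ∈ US N P G w' h' := by
    intro l him h1 h2 h3 h4
    rw [abs_le] at h1
    refine main l him ?_ ?_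
    · intro m hm
      rcases lt_trichotomy m l with h | h | h
      · have a1 := hle (m + 1) l (by omega)
        push_cast at a1
        rw [lt_abs]
        left
        linarith [h1.1]
      · subst h
        exact lt_of_lt_of_le hr (h2 hm)
      · have a1 := hle (l + 1) m (by omega)
        push_cast at a1
        rw [lt_abs]
        right
        linarith [h1.2]
    · intro m hm
      rcases lt_trichotomy m l with h | h | h
      · rcases eq_or_lt_of_le (show m + 1 ≤ l by omega) with h' | h'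
        · right
          have hm' : l - 1 ∈ G := by
            have : l - 1 = m := by omega
            rwa [this]
          have := h3 hm'
          have e1 : ((m : ℝ) + 1) = (l : ℝ) := by exact_mod_cast h'
          rw [e1]
          exact this
        · right
          have a1 := hle (m + 2) l (by omega)
          push_cast at a1
          linarith [h1.1]
      · subst h
        left
        exact h4 hm
      · left
        have a1 := hle (l + 1) m (by omega)
        push_cast at a1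
        linarith [h1.2]
  rcases p with l | l
  · obtain ⟨hlG, him, h1, h2⟩ := hζ
    have h1' : (((l : ℕ) : ℤ) : ℝ) * e + r ≤ ζ.re := by
      rw [hdiv] at h1
      exact_mod_cast h1
    have h2' : ζ.re ≤ ((((l : ℕ) : ℤ) : ℝ) + 1) * e - r := by
      rw [hdiv] at h2
      exact_mod_cast h2
    generalize (((l : ℕ) : ℤ)) = l at *
    refine main l him.le ?_ ?_
    · intro m _
      rcases le_or_gt m l with h | h
      · have a1 := hle m l h
        rw [lt_abs]
        left
        linarith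
      · have a1 := hle (l + 1) m (by omega)
        push_cast at a1
        rw [lt_abs]
        right
        linarith
    · intro m hm
      rcases lt_trichotomy m l with h | h | h
      · right
        have a1 := hle (m + 1) l (by omega)
        push_cast at a1
        linarith
      · subst h
        exact absurd hm hlG
      · left
        have a1 := hle (l + 1) m (by omega)
        push_cast at a1
        linarith
  · rcases hζ with (⟨hlP, him, h1⟩ | ⟨hlP, hlG, him, h1⟩) | ⟨hlP, hlG, him, h1⟩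
    · have h1' : |ζ.re - (((l : ℕ) : ℤ) : ℝ) * e| ≤ r := by
        rw [hdiv] at h1
        exact_mod_cast h1
      generalize (((l : ℕ) : ℤ)) = l at *
      refine near l him.le h1' (fun h => absurd h hlP) (fun h => ?_) (fun h => ?_)
      · exfalso
        apply hlP
        have := hs.c1 _ h
        rwa [sub_add_cancel] at this
      · exact absurd (hs.c0 _ h) hlP
    · have h1' : ζ.re = (((l : ℕ) : ℤ) : ℝ) * e - r := by
        rw [hdiv] at h1
        exact_mod_cast h1
      generalize (((l : ℕ) : ℤ)) = l at *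
      have e1 : ζ.re - l * e = -r := by rw [h1']; ring
      have hr0 : 0 < r := by linarith
      refine near l him (by rw [e1, abs_neg, abs_of_pos hr0]) (fun _ => by rw [e1, abs_neg, abs_of_pos hr0])
        (fun h => absurd h hlG) (fun _ => by linarith)
    · have h1' : ζ.re = (((l : ℕ) : ℤ) : ℝ) * e + r := by
        rw [hdiv] at h1
        exact_mod_cast h1
      generalize (((l : ℕ) : ℤ)) = l at *
      have e1 : ζ.re - l * e = r := by rw [h1']; ring
      have hr0 : 0 < r := by linarith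
      refine near l him (by rw [e1, abs_of_pos hr0]) (fun _ => by rw [e1, abs_of_pos hr0])
        (fun _ => by linarith) (fun h => absurd h hlG)

theorem w5_im_cP {N : ℕ} {P G : Set ℤ} {r σ : ℝ} (p : Pc N) {ζ : ℂ} (hζ : ζ ∈ cP N P G r σ p) :
    |ζ.im| ≤ σ := by
  rcases p with l | l
  · exact hζ.2.1.le
  · rcases hζ with (⟨-, him, -⟩ | ⟨-, -, him, -⟩) | ⟨-, -, him, -⟩
    · exact him.le
    · exact him
    · exact him

theorem w5_re_cP {N : ℕ} {P G : Set ℤ} {r σ : ℝ} (hr : 0 < r) (l : Fin N) {ζ : ℂ}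
    (hζ : ζ ∈ cP N P G r σ (Sum.inr l)) : |ζ.re - ((l : ℕ) : ℝ) / N| ≤ r := by
  rcases hζ with (⟨-, -, h1⟩ | ⟨-, -, -, h1⟩) | ⟨-, -, -, h1⟩
  · exact h1
  · rw [h1]
    have : ((l : ℕ) : ℝ) / N - r - ((l : ℕ) : ℝ) / N = -r := by ring
    rw [this, abs_neg, abs_of_pos hr]
  · rw [h1]
    have : ((l : ℕ) : ℝ) / N + r - ((l : ℕ) : ℝ) / N = r := by ring
    rw [this, abs_of_pos hr]

theorem w5_per_mul {N : ℕ} {Q : Set ℤ} (hQ : ∀ k, k ∈ Q ↔ k + N ∈ Q) (m : ℤ) (k : ℤ) :
    k ∈ Q ↔ k + m * N ∈ Q := by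
  induction m using Int.induction_on with
  | zero => simp
  | succ i ih =>
    rw [ih, hQ (k + (i : ℤ) * N)]
    have : k + (i : ℤ) * N + N = k + ((i : ℤ) + 1) * N := by ring
    rw [this]
  | pred i ih =>
    rw [ih, hQ (k + (-(i : ℤ) - 1) * N)]
    have : k + (-(i : ℤ) - 1) * N + N = k + -(i : ℤ) * N := by ring
    rw [this]

/-- windows of removed points are far from the target domain -/
theorem w5_far {N : ℕ} (hN : 0 < N) {Q G : Set ℤ} (hQ : ∀ k, k ∈ Q ↔ k + N ∈ Q) {w h r : ℝ} {z ζ : ℂ}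
    (hz : z ∈ US N Q G w h) {l : ℕ} (hl : (l : ℤ) ∈ Q) (hζ : |ζ.re - (l : ℝ) / N| ≤ r) (m : ℤ) :
    w - r ≤ |(z - ζ).re - m| := by
  have hNR : (N : ℝ) ≠ 0 := (Nat.cast_pos.2 hN).ne'
  have h1 : (l : ℤ) + m * N ∈ Q := (w5_per_mul hQ m _).1 hl
  have h2 := hz.2.1 _ h1
  have e1 : z.re - (((l : ℤ) + m * N : ℤ) : ℝ) / N = ((z - ζ).re - m) + (ζ.re - (l : ℝ) / N) := by
    push_cast
    rw [Complex.sub_re]
    field_simp
    ring
  rw [e1] at h2
  have h3 := abs_add_le ((z - ζ).re - m) (ζ.re - (l : ℝ) / N)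
  linarith

/-! ### iterated integrals -/

theorem w5_pI_congr {N : ℕ} {P G : Set ℤ} {r σ : ℝ} (hN : 0 < N) (hr : 0 < r) (hr4 : r < 1 / (4 * N))
    (hσ : 0 < σ) (p : Pc N) {f g : ℂ → ℂ} (h : ∀ ζ ∈ cP N P G r σ p, f ζ = g ζ) :
    pI N P G r σ p f = pI N P G r σ p g := by
  have hNR : (0 : ℝ) < N := Nat.cast_pos.2 hN
  have im1 : ∀ x : ℝ, ((x : ℂ) - σ * Complex.I).im = -σ := fun x => by simp
  have im2 : ∀ x : ℝ, ((x : ℂ) + σ * Complex.I).im = σ := fun x => by simp
  have re1 : ∀ x : ℝ, ((x : ℂ) - σ * Complex.I).re = x := fun x => by simp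
  have re2 : ∀ x : ℝ, ((x : ℂ) + σ * Complex.I).re = x := fun x => by simp
  have im3 : ∀ x y : ℝ, ((x : ℂ) + y * Complex.I).im = y := fun x y => by simp
  have re3 : ∀ x y : ℝ, ((x : ℂ) + y * Complex.I).re = x := fun x y => by simp
  rcases p with l | l
  · simp only [pI]
    split_ifs with hG
    · rfl
    · unfold gapI
      refine intervalIntegral.integral_congr ?_
      intro x hx
      have hab : (((l : ℕ) : ℤ) : ℝ) / N + r ≤ ((((l : ℕ) : ℤ) : ℝ) + 1) / N - r := by
        rw [add_div]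
        have e1 : 1 / (4 * (N : ℝ)) = 1 / N / 4 := by field_simp
        rw [e1] at hr4
        linarith
      rw [Set.uIcc_of_le hab] at hx
      have hx1 := hx.1
      have hx2 := hx.2
      rw [Int.cast_natCast] at hx1 hx2
      have m1 : ((x : ℂ) - σ * Complex.I) ∈ cP N P G r σ (Sum.inl l) := by
        refine ⟨hG, ?_, ?_, ?_⟩
        · rw [im1, abs_neg, abs_of_pos hσ]
        · rw [re1]; exact hx1
        · rw [re1]; exact hx2
      have m2 : ((x : ℂ) + σ * Complex.I) ∈ cP N P G r σ (Sum.inl l) := by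
        refine ⟨hG, ?_, ?_, ?_⟩
        · rw [im2, abs_of_pos hσ]
        · rw [re2]; exact hx1
        · rw [re2]; exact hx2
      show f _ - f _ = g _ - g _
      rw [h _ m1, h _ m2]
  · simp only [pI]
    split_ifs with hP hG1 hG2 hG2
    · rfl
    · congr 1
      unfold verR
      congr 1
      refine intervalIntegral.integral_congr ?_
      intro y hy
      rw [Set.uIcc_of_le (by linarith)] at hy
      have m1 : ((((((l : ℕ) : ℤ) : ℝ) / N + r : ℝ) : ℂ) + y * Complex.I) ∈ cP N P G r σ (Sum.inr l) := by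
        right
        refine ⟨hP, hG2, ?_, ?_⟩
        · rw [im3, abs_le]; exact ⟨hy.1, hy.2⟩
        · rw [re3, Int.cast_natCast]
      exact h _ m1
    · congr 1
      unfold verL
      congr 1
      refine intervalIntegral.integral_congr ?_
      intro y hy
      rw [Set.uIcc_of_le (by linarith)] at hy
      have m1 : ((((((l : ℕ) : ℤ) : ℝ) / N - r : ℝ) : ℂ) + y * Complex.I) ∈ cP N P G r σ (Sum.inr l) := by
        left
        right
        refine ⟨hP, hG1, ?_, ?_⟩
        · rw [im3, abs_le]; exact ⟨hy.1, hy.2⟩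
        · rw [re3, Int.cast_natCast]
      exact h _ m1
    · congr 1
      · unfold verL
        congr 1
        refine intervalIntegral.integral_congr ?_
        intro y hy
        rw [Set.uIcc_of_le (by linarith)] at hy
        have m1 : ((((((l : ℕ) : ℤ) : ℝ) / N - r : ℝ) : ℂ) + y * Complex.I) ∈ cP N P G r σ (Sum.inr l) := by
          left
          right
          refine ⟨hP, hG1, ?_, ?_⟩
          · rw [im3, abs_le]; exact ⟨hy.1, hy.2⟩
          · rw [re3, Int.cast_natCast]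
        exact h _ m1
      · unfold verR
        congr 1
        refine intervalIntegral.integral_congr ?_
        intro y hy
        rw [Set.uIcc_of_le (by linarith)] at hy
        have m1 : ((((((l : ℕ) : ℤ) : ℝ) / N + r : ℝ) : ℂ) + y * Complex.I) ∈ cP N P G r σ (Sum.inr l) := by
          right
          refine ⟨hP, hG2, ?_, ?_⟩
          · rw [im3, abs_le]; exact ⟨hy.1, hy.2⟩
          · rw [re3, Int.cast_natCast]
        exact h _ m1
    · unfold capI
      refine intervalIntegral.integral_congr ?_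
      intro x hx
      rw [Set.uIcc_of_le (by linarith)] at hx
      have hx1 := hx.1
      have hx2 := hx.2
      rw [Int.cast_natCast] at hx1 hx2
      have m1 : ((x : ℂ) - σ * Complex.I) ∈ cP N P G r σ (Sum.inr l) := by
        left
        left
        refine ⟨hP, ?_, ?_⟩
        · rw [im1, abs_neg, abs_of_pos hσ]
        · rw [re1, abs_le]; constructor <;> linarith
      have m2 : ((x : ℂ) + σ * Complex.I) ∈ cP N P G r σ (Sum.inr l) := by
        left
        left
        refine ⟨hP, ?_, ?_⟩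
        · rw [im2, abs_of_pos hσ]
        · rw [re2, abs_le]; constructor <;> linarith
      show f _ - f _ = g _ - g _
      rw [h _ m1, h _ m2]

theorem w5_itI_congr {N : ℕ} {P G : Set ℤ} {r σ : ℝ} (hN : 0 < N) (hr : 0 < r) (hr4 : r < 1 / (4 * N))
    (hσ : 0 < σ) : ∀ (q : ℕ) (τ : Fin q → Pc N) (F F' : (Fin q → ℂ) → ℂ),
    (∀ ζ, (∀ j, ζ j ∈ cP N P G r σ (τ j)) → F ζ = F' ζ) → itI N P G r σ q τ F = itI N P G r σ q τ F'
  | 0, τ, F, F', h => h _ (fun j => j.elim0)
  | (q + 1), τ, F, F', h => by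
    simp only [itI]
    refine w5_pI_congr hN hr hr4 hσ _ ?_
    intro ζ hζ
    refine w5_itI_congr hN hr hr4 hσ q _ _ _ ?_
    intro v hv
    refine h _ ?_
    intro j
    refine Fin.cases ?_ ?_ j
    · exact hζ
    · intro i
      exact hv i

theorem w5_pI_mul {N : ℕ} {P G : Set ℤ} {r σ : ℝ} (p : Pc N) (c : ℂ) (f : ℂ → ℂ) :
    pI N P G r σ p (fun ζ => c * f ζ) = c * pI N P G r σ p f := by
  have h1 : ∀ l, gapI N r σ l (fun ζ => c * f ζ) = c * gapI N r σ l f := by
    intro l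
    unfold gapI
    rw [← intervalIntegral.integral_const_mul]
    refine intervalIntegral.integral_congr fun x _ => ?_
    ring
  have h2 : ∀ l, capI N r σ l (fun ζ => c * f ζ) = c * capI N r σ l f := by
    intro l
    unfold capI
    rw [← intervalIntegral.integral_const_mul]
    refine intervalIntegral.integral_congr fun x _ => ?_
    ring
  have h3 : ∀ l, verL N r σ l (fun ζ => c * f ζ) = c * verL N r σ l f := by
    intro l
    unfold verL
    rw [intervalIntegral.integral_const_mul]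
    ring
  have h4 : ∀ l, verR N r σ l (fun ζ => c * f ζ) = c * verR N r σ l f := by
    intro l
    unfold verR
    rw [intervalIntegral.integral_const_mul]
    ring
  rcases p with l | l
  · simp only [pI, h1]
    split_ifs <;> ring
  · simp only [pI, h2, h3, h4]
    split_ifs <;> ring

theorem w5_itI_mul {N : ℕ} {P G : Set ℤ} {r σ : ℝ} (c : ℂ) : ∀ (q : ℕ) (τ : Fin q → Pc N)
    (F : (Fin q → ℂ) → ℂ), itI N P G r σ q τ (fun ζ => c * F ζ) = c * itI N P G r σ q τ F
  | 0, τ, F => rfl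
  | (q + 1), τ, F => by
    simp only [itI]
    rw [← w5_pI_mul]
    congr 1
    funext ζ
    exact w5_itI_mul c q _ _

/-! ### the kernel -/

theorem w5_continuous_sn : Continuous sn := by
  unfold sn
  exact (Complex.continuous_sin.comp (continuous_const.mul continuous_id)).pow 2

theorem w5_diff_sn : Differentiable ℂ sn := by
  unfold sn
  exact (Complex.differentiable_sin.comp (differentiable_id.const_mul _)).pow 2

theorem w5_diff_reg : Differentiable ℂ w5_reg := by
  unfold w5_reg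
  exact (((Complex.differentiable_sin.comp (differentiable_id.const_mul _)).mul
    (Complex.differentiable_cos.comp (differentiable_id.const_mul _))).neg).div_const _

theorem w5_diff_kap {u : ℂ} (h : Complex.sin (π * u) ≠ 0) : DifferentiableAt ℂ kap u := by
  have h1 : kap = fun u => Complex.cos (π * u) / Complex.sin (π * u) / (2 * Complex.I) := funext w5_kap_eq
  rw [h1]
  have h2 : DifferentiableAt ℂ (fun u : ℂ => Complex.cos (π * u)) u :=
    (Complex.differentiable_cos.comp (differentiable_id.const_mul _)) u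
  have h3 : DifferentiableAt ℂ (fun u : ℂ => Complex.sin (π * u)) u :=
    (Complex.differentiable_sin.comp (differentiable_id.const_mul _)) u
  exact (h2.div h3 h).div_const _

open Classical in
/-- the factor of the variable `j` after cancellation of the pole -/
def w5_fac {N : ℕ} (k : Fin N) (p : Pc N) (z ζ : ℂ) : ℂ :=
  if p = Sum.inr k then w5_reg (z - ζ) else kap (ζ - z)

theorem w5_ker {N q : ℕ} (M : ℕ) (k : Fin N) (τ : Fin q → Pc N) (F : (Fin q → ℂ) → ℂ) (z ζ : Fin q → ℂ) :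
    F ζ * (Pw k τ z ζ / Sw M τ z ζ) * ∏ j, kap (ζ j - z j)
      = F ζ * (Sw M τ z ζ)⁻¹ * ∏ j, w5_fac k (τ j) (z j) (ζ j) := by
  classical
  have h1 : Pw k τ z ζ * ∏ j, kap (ζ j - z j) = ∏ j, w5_fac k (τ j) (z j) (ζ j) := by
    unfold Pw
    rw [← Finset.prod_mul_distrib]
    refine Finset.prod_congr rfl fun j _ => ?_
    unfold w5_fac
    split_ifs with h
    · exact w5_snkap _ _
    · rw [one_mul]
  rw [← h1]
  ring

theorem w5_continuous_Pw {N q : ℕ} (l : Fin N) (τ : Fin q → Pc N) :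
    Continuous fun x : (Fin q → ℂ) × (Fin q → ℂ) => Pw l τ x.1 x.2 := by
  classical
  unfold Pw
  refine continuous_finsetProd _ fun j _ => ?_
  split_ifs
  · exact w5_continuous_sn.comp (((continuous_apply j).comp continuous_fst).sub
      ((continuous_apply j).comp continuous_snd))
  · exact continuous_const

theorem w5_continuous_Sw {N q : ℕ} (M : ℕ) (τ : Fin q → Pc N) :
    Continuous fun x : (Fin q → ℂ) × (Fin q → ℂ) => Sw M τ x.1 x.2 := by
  unfold Sw
  refine continuous_finsetSum _ fun l _ => ?_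
  split_ifs
  · exact w5_continuous_Pw l τ
  · exact continuous_const

theorem w5_diff_Pw {N q : ℕ} (l : Fin N) (τ : Fin q → Pc N) (ζ : Fin q → ℂ) :
    Differentiable ℂ fun z : Fin q → ℂ => Pw l τ z ζ := by
  classical
  have h1 : DifferentiableOn ℂ (fun z : Fin q → ℂ => ∏ j ∈ Finset.univ,
      (if τ j = Sum.inr l then sn (z j - ζ j) else 1)) Set.univ := by
    refine diffOn_prod _ fun j _ => ?_
    split_ifs
    · exact (w5_diff_sn.comp ((differentiable_apply j).sub_const _)).differentiableOn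
    · exact differentiableOn_const _
  rw [differentiableOn_univ] at h1
  unfold Pw
  exact h1

theorem w5_diff_Sw {N q : ℕ} (M : ℕ) (τ : Fin q → Pc N) (ζ : Fin q → ℂ) :
    Differentiable ℂ fun z : Fin q → ℂ => Sw M τ z ζ := by
  unfold Sw
  refine Differentiable.fun_sum fun l _ => ?_
  split_ifs
  · exact w5_diff_Pw l τ ζ
  · exact differentiable_const _

theorem w5_Pw_per {N q : ℕ} (l : Fin N) (τ : Fin q → Pc N) (z ζ : Fin q → ℂ) (i : Fin q) :
    Pw l τ (Function.update z i (z i + 1)) ζ = Pw l τ z ζ := by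
  classical
  unfold Pw
  refine Finset.prod_congr rfl fun j _ => ?_
  split_ifs with h
  · by_cases hj : j = i
    · subst hj
      rw [Function.update_self]
      have e1 : z j + 1 - ζ j = z j - ζ j + 1 := by ring
      rw [e1, w5_sn_per]
    · rw [Function.update_of_ne hj]
  · rfl

theorem w5_Sw_per {N q : ℕ} (M : ℕ) (τ : Fin q → Pc N) (z ζ : Fin q → ℂ) (i : Fin q) :
    Sw M τ (Function.update z i (z i + 1)) ζ = Sw M τ z ζ := by
  unfold Sw
  refine Finset.sum_congr rfl fun l _ => ?_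
  rw [w5_Pw_per]

theorem w5_eop_per (N : ℕ) (P G : Set ℤ) (r σ : ℝ) (M : ℕ) (k : Fin N) (q : ℕ) (F : (Fin q → ℂ) → ℂ)
    (z : Fin q → ℂ) (i : Fin q) :
    eop N P G r σ M k q F (Function.update z i (z i + 1)) = eop N P G r σ M k q F z := by
  unfold eop
  refine Finset.sum_congr rfl fun τ _ => ?_
  congr 1
  funext ζ
  rw [w5_Pw_per, w5_Sw_per]
  congr 1
  refine Finset.prod_congr rfl fun j _ => ?_
  by_cases hj : j = i
  · subst hj
    rw [Function.update_self]
    have e1 : ζ j - (z j + 1) = ζ j - z j - 1 := by ring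
    rw [e1, w5_kap_per]
  · rw [Function.update_of_ne hj]

theorem w5_Pw_perm {N q : ℕ} (l : Fin N) (τ : Fin q → Pc N) (z ζ : Fin q → ℂ) (e : Equiv.Perm (Fin q)) :
    Pw l τ z (fun i => ζ (e.symm i)) = Pw l (fun i => τ (e i)) (fun i => z (e i)) ζ := by
  classical
  unfold Pw
  rw [← Equiv.prod_comp e]
  refine Finset.prod_congr rfl fun j _ => ?_
  simp only [Equiv.symm_apply_apply]

theorem w5_Sw_perm {N q : ℕ} (M : ℕ) (τ : Fin q → Pc N) (z ζ : Fin q → ℂ) (e : Equiv.Perm (Fin q)) :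
    Sw M τ z (fun i => ζ (e.symm i)) = Sw M (fun i => τ (e i)) (fun i => z (e i)) ζ := by
  unfold Sw
  refine Finset.sum_congr rfl fun l _ => ?_
  rw [w5_Pw_perm]

/-- a distinguished window which is far from the variables in it -/
theorem w5_good {N M q : ℕ} {Q G' P' G : Set ℤ} {I : Set ℤ} (hN : 0 < N) (hMN : M ≤ N)
    (hQ : ∀ k, k ∈ Q ↔ k + N ∈ Q) (hIQ : I ⊆ Q) (hI : ∀ i ∈ I, 0 ≤ i ∧ i < M)
    (hIM : I.Nonempty ∨ q < M) {w h r σ : ℝ} (hr : 0 < r) (τ : Fin q → Pc N) {z ζ : Fin q → ℂ}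
    (hz : z ∈ PU q (US N Q G' w h)) (hζ : ∀ j, ζ j ∈ cP N P' G r σ (τ j)) :
    ∃ i : Fin N, (i : ℕ) < M ∧ ∀ j, τ j = Sum.inr i → ∀ k : ℤ, w - r ≤ |(z j - ζ j).re - k| := by
  rcases hIM with ⟨i, hi⟩ | hqM
  · obtain ⟨hi0, hiM⟩ := hI i hi
    have hiN : i.toNat < N := by omega
    have hcast : ((i.toNat : ℕ) : ℤ) = i := Int.toNat_of_nonneg hi0
    refine ⟨⟨i.toNat, hiN⟩, ?_, ?_⟩
    · show i.toNat < M
      omega
    · intro j hj m
      have hζj := hζ j
      rw [hj] at hζj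
      have h1 := w5_re_cP hr ⟨i.toNat, hiN⟩ hζj
      refine w5_far hN hQ (hz j) (l := i.toNat) ?_ h1 m
      rw [hcast]
      exact hIQ hi
  · by_contra hcon
    push Not at hcon
    choose f hf using hcon
    have hinj : Function.Injective fun a : Fin M => f ⟨(a : ℕ), lt_of_lt_of_le a.2 hMN⟩ a.2 := by
      intro a b hab
      have h1 := (hf ⟨(a : ℕ), lt_of_lt_of_le a.2 hMN⟩ a.2).1
      have h2 := (hf ⟨(b : ℕ), lt_of_lt_of_le b.2 hMN⟩ b.2).1
      simp only at hab
      rw [hab, h2] at h1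
      have h3 := Sum.inr.inj h1
      have h4 : (b : ℕ) = (a : ℕ) := Fin.mk.inj h3
      exact Fin.ext h4.symm
    have := Fintype.card_le_of_injective _ hinj
    rw [Fintype.card_fin, Fintype.card_fin] at this
    omega

theorem w5_notin {N : ℕ} {P I : Set ℤ} {k l : Fin N} (hlk : l ≠ k)
    (hl : ((l : ℕ) : ℤ) ∈ P ∪ pcl N (I ∪ {((k : ℕ) : ℤ)})) : ((l : ℕ) : ℤ) ∈ P ∪ pcl N I := by
  rcases hl with hP | ⟨t, ht | ht⟩
  · exact Or.inl hP
  · exact Or.inr ⟨t, ht⟩
  · exfalso
    rw [Set.mem_singleton_iff] at ht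
    have h1 := l.2
    have h2 := k.2
    apply hlk
    apply Fin.ext
    rcases lt_trichotomy t 0 with h | h | h
    · nlinarith
    · rw [h] at ht
      simpa using ht
    · nlinarith

theorem w5_sin_lower {N : ℕ} {P I G : Set ℤ} {k : Fin N} (hN : 0 < N) (hs : Shape N P G)
    {w r h σ : ℝ} (hr : 0 < r) (hrw : r < w) (hh : h < σ) (p : Pc N) (hp : p ≠ Sum.inr k) {z ζ : ℂ}
    (hz : z ∈ US N (P ∪ pcl N I) G w h) (hζ : ζ ∈ cP N (P ∪ pcl N (I ∪ {((k : ℕ) : ℤ)})) G r σ p) :
    min (π * (σ - h)) (2 * (w - r)) ≤ ‖Complex.sin (π * (ζ - z))‖ := by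
  have him : |ζ.im| = σ → σ - h ≤ |(ζ - z).im| := by
    intro h1
    have h2 : |z.im| < h := hz.1
    rw [Complex.sub_im]
    have h3 := abs_sub_abs_le_abs_sub ζ.im z.im
    linarith
  have hA : |ζ.im| = σ → min (π * (σ - h)) (2 * (w - r)) ≤ ‖Complex.sin (π * (ζ - z))‖ := fun h1 =>
    (min_le_left _ _).trans (w5_sin_ge_im (by linarith) (him h1))
  rcases p with l | l
  · exact hA hζ.2.1
  · have hlk : l ≠ k := fun h => hp (by rw [h])
    by_cases hl : ((l : ℕ) : ℤ) ∈ P ∪ pcl N (I ∪ {((k : ℕ) : ℤ)})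
    · have h1 := w5_re_cP hr l hζ
      refine (min_le_right _ _).trans (w5_sin_ge_re (by linarith) fun m => ?_)
      have h2 := w5_far hN (hs.union I).perP hz (w5_notin hlk hl) h1 (-m)
      have e1 : |(ζ - z).re - m| = |(z - ζ).re - ((-m : ℤ) : ℝ)| := by
        rw [← abs_neg]
        congr 1
        rw [Complex.sub_re, Complex.sub_re]
        push_cast
        ring
      rw [e1]
      exact h2
    · rcases hζ with (⟨-, h1, -⟩ | ⟨h1, -, -, -⟩) | ⟨h1, -, -, -⟩
      · exact hA h1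
      · exact absurd h1 hl
      · exact absurd h1 hl

theorem w5_prod_le {q : ℕ} {f : Fin q → ℂ} {C : ℝ} (hf : ∀ j, ‖f j‖ ≤ C) : ‖∏ j, f j‖ ≤ C ^ q := by
  rw [norm_prod]
  calc ∏ j, ‖f j‖ ≤ ∏ _j : Fin q, C := Finset.prod_le_prod (fun j _ => norm_nonneg _) fun j _ => hf j
    _ = C ^ q := by rw [Finset.prod_const, Finset.card_univ, Fintype.card_fin]

theorem st_W5 (h3 : ST_W3) (h4 : ST_W4) (h4b : ST_W4b) : ST_W5 := by
  classical
  intro N M q P G I k hD hk hI hIM w' w hw' hww hw4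
  have hN := hD.pos
  obtain ⟨h0, ρ, C3, hh0, hρ, hS⟩ := h3 N q (w - (w' + w) / 2) hN (by linarith)
  refine ⟨h0, hh0, ?_⟩
  intro h h' hh hhh hh'
  set r : ℝ := (w' + w) / 2 with hr
  set σ : ℝ := (h' + h) / 2 with hσ
  have hr0 : 0 < r := by linarith
  have hw'r : w' < r := by linarith
  have hrw : r < w := by linarith
  have hr4 : r < 1 / (4 * N) := by linarith
  have hhσ : h < σ := by linarith
  have hσh' : σ < h' := by linarith
  have hσ0 : 0 < σ := by linarith
  have hσh0 : σ ≤ h0 := by linarith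
  have hsQ : Shape N (P ∪ pcl N I) G := hD.sh.union I
  have hsP' : Shape N (P ∪ pcl N (I ∪ {((k : ℕ) : ℤ)})) G := hD.sh.union _
  set Q : Set ℤ := P ∪ pcl N I with hQ
  set P' : Set ℤ := P ∪ pcl N (I ∪ {((k : ℕ) : ℤ)}) with hP'
  have hIQ : I ⊆ Q := fun i hi => Or.inr (subset_pcl N I hi)
  have hUo : IsOpen (PU q (US N Q G w h)) := isOpen_PU q (isOpen_US hN Q G w h)
  -- pointwise facts
  have hcont : ∀ (τ : Fin q → Pc N) (ζ : Fin q → ℂ), (∀ j, ζ j ∈ cP N P' G r σ (τ j)) →
      ζ ∈ PU q (US N P' G w' h') := fun τ ζ hζ j => w5_cP_US hN hsP' hw' hw'r hr4 hσh' (τ j) (hζ j)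
  have hSw : ∀ (τ : Fin q → Pc N) (z ζ : Fin q → ℂ), z ∈ PU q (US N Q G w h) →
      (∀ j, ζ j ∈ cP N P' G r σ (τ j)) → ρ ≤ (Sw M τ z ζ).re := by
    intro τ z ζ hz hζ
    refine (hS M τ z ζ (fun j => ?_) (fun j => ?_) (w5_good hN hD.le hsQ.perP hIQ hI hIM hr0 τ hz hζ)).1
    · have := (hz j).1
      linarith
    · have := w5_im_cP (τ j) (hζ j)
      linarith
  have hSw0 : ∀ (τ : Fin q → Pc N) (z ζ : Fin q → ℂ), z ∈ PU q (US N Q G w h) →
      (∀ j, ζ j ∈ cP N P' G r σ (τ j)) → Sw M τ z ζ ≠ 0 := by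
    intro τ z ζ hz hζ h5
    have := hSw τ z ζ hz hζ
    rw [h5, Complex.zero_re] at this
    linarith
  set c : ℝ := min (π * (σ - h)) (2 * (w - r)) with hc
  have hc0 : 0 < c := lt_min (mul_pos Real.pi_pos (by linarith)) (by linarith)
  have hsin : ∀ (τ : Fin q → Pc N) (z ζ : Fin q → ℂ), z ∈ PU q (US N Q G w h) →
      (∀ j, ζ j ∈ cP N P' G r σ (τ j)) → ∀ j, τ j ≠ Sum.inr k → c ≤ ‖Complex.sin (π * (ζ j - z j))‖ :=
    fun τ z ζ hz hζ j hj => w5_sin_lower hN hD.sh hr0 hrw hhσ (τ j) hj (hz j) (hζ j)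
  -- the integrand
  have hK1 : ∀ F : (Fin q → ℂ) → ℂ, BO q (US N P' G w' h') F → ∀ τ : Fin q → Pc N,
      ContinuousOn (fun x : (Fin q → ℂ) × (Fin q → ℂ) => F x.2 * (Pw k τ x.1 x.2 / Sw M τ x.1 x.2) *
        ∏ j, kap (x.2 j - x.1 j)) (PU q (US N Q G w h) ×ˢ {ζ | ∀ j, ζ j ∈ cP N P' G r σ (τ j)}) := by
    intro F hF τ
    have e1 : (fun x : (Fin q → ℂ) × (Fin q → ℂ) => F x.2 * (Pw k τ x.1 x.2 / Sw M τ x.1 x.2) *
        ∏ j, kap (x.2 j - x.1 j)) = fun x => F x.2 * (Sw M τ x.1 x.2)⁻¹ *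
        ∏ j, w5_fac k (τ j) (x.1 j) (x.2 j) := funext fun x => w5_ker M k τ F x.1 x.2
    rw [e1]
    refine ContinuousOn.mul (ContinuousOn.mul ?_ ?_) ?_
    · exact hF.hol.continuousOn.comp continuousOn_snd fun x hx => hcont τ x.2 hx.2
    · exact (w5_continuous_Sw M τ).continuousOn.inv₀ fun x hx => hSw0 τ x.1 x.2 hx.1 hx.2
    · refine continuousOn_finsetProd _ fun j _ => ?_
      by_cases hj : τ j = Sum.inr k
      · have e2 : (fun x : (Fin q → ℂ) × (Fin q → ℂ) => w5_fac k (τ j) (x.1 j) (x.2 j))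
            = fun x => w5_reg (x.1 j - x.2 j) := by
          funext x
          simp only [w5_fac, hj, if_true]
        rw [e2]
        exact (w5_diff_reg.continuous.comp (((continuous_apply j).comp continuous_fst).sub
          ((continuous_apply j).comp continuous_snd))).continuousOn
      · have e2 : (fun x : (Fin q → ℂ) × (Fin q → ℂ) => w5_fac k (τ j) (x.1 j) (x.2 j))
            = fun x => kap (x.2 j - x.1 j) := by
          funext x
          simp only [w5_fac, hj, if_false]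
        rw [e2]
        intro x hx
        have h5 := hsin τ x.1 x.2 hx.1 hx.2 j hj
        have h6 : Complex.sin (π * (x.2 j - x.1 j)) ≠ 0 := by
          intro h7
          rw [h7, norm_zero] at h5
          linarith
        have h8 : ContinuousAt (fun x : (Fin q → ℂ) × (Fin q → ℂ) => x.2 j - x.1 j) x :=
          (((continuous_apply j).comp continuous_snd).sub ((continuous_apply j).comp continuous_fst)).continuousAt
        exact (ContinuousAt.comp (f := fun x : (Fin q → ℂ) × (Fin q → ℂ) => x.2 j - x.1 j)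
          (w5_diff_kap h6).continuousAt h8).continuousWithinAt
  have hK2 : ∀ F : (Fin q → ℂ) → ℂ, ∀ τ : Fin q → Pc N, ∀ ζ, (∀ j, ζ j ∈ cP N P' G r σ (τ j)) →
      DifferentiableOn ℂ (fun z => F ζ * (Pw k τ z ζ / Sw M τ z ζ) * ∏ j, kap (ζ j - z j))
        (PU q (US N Q G w h)) := by
    intro F τ ζ hζ
    have e1 : (fun z => F ζ * (Pw k τ z ζ / Sw M τ z ζ) * ∏ j, kap (ζ j - z j)) =
        fun z => F ζ * (Sw M τ z ζ)⁻¹ * ∏ j, w5_fac k (τ j) (z j) (ζ j) := funext fun z => w5_ker M k τ F z ζ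
    rw [e1]
    refine DifferentiableOn.mul (DifferentiableOn.mul (differentiableOn_const _) ?_) ?_
    · exact (w5_diff_Sw M τ ζ).differentiableOn.fun_inv fun z hz => hSw0 τ z ζ hz hζ
    · refine diffOn_prod _ fun j _ => ?_
      by_cases hj : τ j = Sum.inr k
      · have e2 : (fun z : Fin q → ℂ => w5_fac k (τ j) (z j) (ζ j)) = fun z => w5_reg (z j - ζ j) := by
          funext x
          simp only [w5_fac, hj, if_true]
        rw [e2]
        exact (w5_diff_reg.comp ((differentiable_apply j).sub_const _)).differentiableOn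
      · have e2 : (fun z : Fin q → ℂ => w5_fac k (τ j) (z j) (ζ j)) = fun z => kap (ζ j - z j) := by
          funext x
          simp only [w5_fac, hj, if_false]
        rw [e2]
        intro z hz
        have h5 := hsin τ z ζ hz hζ j hj
        have h6 : Complex.sin (π * (ζ j - z j)) ≠ 0 := by
          intro h7
          rw [h7, norm_zero] at h5
          linarith
        have h8 : DifferentiableAt ℂ (fun z : Fin q → ℂ => ζ j - z j) z :=
          ((differentiable_apply j).const_sub _) z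
        exact (DifferentiableAt.comp (f := fun z : Fin q → ℂ => ζ j - z j) z
          (w5_diff_kap h6) h8).differentiableWithinAt
  set Ck : ℝ := max (Real.cosh (π * (2 * h0)) ^ 2) (Real.cosh (π * (2 * h0)) / c) with hCk
  have hCk0 : 0 ≤ Ck := (sq_nonneg _).trans (le_max_left _ _)
  have hK3 : ∀ F : (Fin q → ℂ) → ℂ, ∀ B : ℝ, (∀ z ∈ PU q (US N P' G w' h'), ‖F z‖ ≤ B) →
      ∀ τ : Fin q → Pc N, ∀ z ∈ PU q (US N Q G w h), ∀ ζ, (∀ j, ζ j ∈ cP N P' G r σ (τ j)) →
      ‖F ζ * (Pw k τ z ζ / Sw M τ z ζ) * ∏ j, kap (ζ j - z j)‖ ≤ B * ρ⁻¹ * Ck ^ q := by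
    intro F B hB τ z hz ζ hζ
    rw [w5_ker, norm_mul, norm_mul, norm_inv]
    have b1 := hB ζ (hcont τ ζ hζ)
    have b2 : ‖Sw M τ z ζ‖⁻¹ ≤ ρ⁻¹ := by
      refine inv_anti₀ hρ ?_
      exact (hSw τ z ζ hz hζ).trans (Complex.re_le_norm _)
    have him : ∀ j, |(ζ j - z j).im| ≤ 2 * h0 ∧ |(z j - ζ j).im| ≤ 2 * h0 := by
      intro j
      have h5 := (hz j).1
      have h6 := w5_im_cP (τ j) (hζ j)
      have h7 : |(ζ j - z j).im| ≤ |(ζ j).im| + |(z j).im| := by
        rw [Complex.sub_im]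
        exact abs_sub _ _
      have h8 : |(z j - ζ j).im| = |(ζ j - z j).im| := by
        rw [Complex.sub_im, Complex.sub_im, abs_sub_comm]
      constructor
      · linarith
      · rw [h8]; linarith
    have b3 : ‖∏ j, w5_fac k (τ j) (z j) (ζ j)‖ ≤ Ck ^ q := by
      refine w5_prod_le fun j => ?_
      unfold w5_fac
      split_ifs with hj
      · exact (w5_reg_le (him j).2).trans (le_max_left _ _)
      · exact (w5_kap_le hc0 (him j).1 (hsin τ z ζ hz hζ j hj)).trans (le_max_right _ _)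
    have hB0 : 0 ≤ B := (norm_nonneg _).trans b1
    exact mul_le_mul (mul_le_mul b1 b2 (inv_nonneg.2 (norm_nonneg _)) hB0) b3 (norm_nonneg _)
      (mul_nonneg hB0 (inv_nonneg.2 hρ.le))
  choose L hL using fun τ : Fin q → Pc N => h4 N q q P' G r σ hN hr0 hr4 hσ0 τ
  have hbound : ∀ F : (Fin q → ℂ) → ℂ, BO q (US N P' G w' h') F → ∀ B : ℝ,
      (∀ z ∈ PU q (US N P' G w' h'), ‖F z‖ ≤ B) → ∀ z ∈ PU q (US N Q G w h),
      ‖eop N P' G r σ M k q F z‖ ≤ (∑ τ : Fin q → Pc N, L τ) * (ρ⁻¹ * Ck ^ q) * B := by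
    intro F hF B hB z hz
    unfold eop
    refine (norm_sum_le _ _).trans ?_
    rw [Finset.sum_mul, Finset.sum_mul]
    refine Finset.sum_le_sum fun τ _ => ?_
    have h5 := (hL τ (PU q (US N Q G w h))
      (fun z ζ => F ζ * (Pw k τ z ζ / Sw M τ z ζ) * ∏ j, kap (ζ j - z j)) hUo (hK1 F hF τ)
      (hK2 F τ)).2 (B * ρ⁻¹ * Ck ^ q) (hK3 F B hB τ) z hz
    refine h5.trans (le_of_eq ?_)
    ring
  refine ⟨fun F hF => ⟨?_, ?_, ?_, ?_⟩, ⟨_, hbound⟩⟩
  · -- holomorphic
    unfold eop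
    refine DifferentiableOn.fun_sum fun τ _ => ?_
    exact (hL τ (PU q (US N Q G w h))
      (fun z ζ => F ζ * (Pw k τ z ζ / Sw M τ z ζ) * ∏ j, kap (ζ j - z j)) hUo (hK1 F hF τ)
      (hK2 F τ)).1
  · -- periodic
    intro z _ i
    exact w5_eop_per N P' G r σ M k q F z i
  · -- alternating
    intro z hz e
    unfold eop
    rw [← Equiv.sum_comp (Equiv.arrowCongr e.symm (Equiv.refl (Pc N))), Finset.mul_sum]
    refine Finset.sum_congr rfl fun τ _ => ?_
    have e0 : (Equiv.arrowCongr e.symm (Equiv.refl (Pc N))) τ = fun i => τ (e i) := by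
      funext i
      simp [Equiv.arrowCongr]
    rw [e0]
    set H : (Fin q → ℂ) → ℂ := fun ξ => F (fun i => ξ (e i)) * (Pw k τ z ξ / Sw M τ z ξ) *
      ∏ j, kap (ξ j - z j) with hH
    have hHe : (fun ζ : Fin q → ℂ => F ζ * (Pw k (fun i => τ (e i)) (fun i => z (e i)) ζ /
        Sw M (fun i => τ (e i)) (fun i => z (e i)) ζ) * ∏ j, kap (ζ j - z (e j)))
        = fun ζ => H (fun i => ζ (e.symm i)) := by
      funext ζ
      simp only [hH]
      rw [w5_Pw_perm, w5_Sw_perm]
      have h5 : (fun i => ζ (e.symm (e i))) = ζ := by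
        funext i
        rw [Equiv.symm_apply_apply]
      rw [h5]
      congr 1
      rw [← Equiv.prod_comp e (fun j => kap (ζ (e.symm j) - z j))]
      refine Finset.prod_congr rfl fun j _ => ?_
      rw [Equiv.symm_apply_apply]
    have hHc : ∀ ξ ∈ {ξ : Fin q → ℂ | ∀ j, ξ j ∈ cP N P' G r σ (τ j)}, H ξ =
        ((Equiv.Perm.sign e : ℤ) : ℂ) * (F ξ * (Pw k τ z ξ / Sw M τ z ξ) * ∏ j, kap (ξ j - z j)) := by
      intro ξ hξ
      simp only [hH]
      rw [hF.alt ξ (hcont τ ξ hξ) e]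
      ring
    have hKc : ContinuousOn (fun ξ : Fin q → ℂ => F ξ * (Pw k τ z ξ / Sw M τ z ξ) * ∏ j, kap (ξ j - z j))
        {ξ | ∀ j, ξ j ∈ cP N P' G r σ (τ j)} := by
      have h6 : ContinuousOn (fun ξ : Fin q → ℂ => (z, ξ)) {ξ | ∀ j, ξ j ∈ cP N P' G r σ (τ j)} :=
        (continuous_const.prodMk continuous_id).continuousOn
      exact (hK1 F hF τ).comp h6 fun ξ hξ => ⟨hz, hξ⟩
    have hHcont : ContinuousOn H {ξ | ∀ j, ξ j ∈ cP N P' G r σ (τ j)} :=
      (continuousOn_const.mul hKc).congr hHc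
    rw [hHe, h4b N q P' G r σ hN hr0 hr4 hσ0 τ H e hHcont]
    rw [w5_itI_congr hN hr0 hr4 hσ0 q τ H _ hHc, w5_itI_mul]
  · -- bounded
    obtain ⟨B, hB⟩ := hF.bdd
    exact ⟨_, hbound F hF B hB⟩

end

end Pool.Agent.Helper67.DO
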