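import Pool.Agent.Helper97.DO.W5

/-!
# MP_d07457_gt, supplement to W5: continuity of the integrand of the window operator on the contour
-/

namespace Pool.Agent.Helper67.DO

open scoped BigOperators Real

noncomputable section

/-- the integrand of `eop` is continuous on the contour -/
theorem w5_cont (h3 : ST_W3) : ∀ (N M q : ℕ) (P G I : Set ℤ) (k : Fin N), Dist N M P G → (k : ℕ) < M →
    (∀ i ∈ I, 0 ≤ i ∧ i < M) → (I.Nonempty ∨ q < M) → Loss N fun w' h' w h =>
      ∀ F, BO q (US N (P ∪ pcl N (I ∪ {((k : ℕ) : ℤ)})) G w' h') F →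
        ∀ z ∈ PU q (US N (P ∪ pcl N I) G w h), ∀ τ : Fin q → Pc N,
        ContinuousOn (fun ζ => F ζ * (Pw k τ z ζ / Sw M τ z ζ) * ∏ j, kap (ζ j - z j))
          {ζ | ∀ j, ζ j ∈ cP N (P ∪ pcl N (I ∪ {((k : ℕ) : ℤ)})) G ((w' + w) / 2) ((h' + h) / 2) (τ j)} := by
  classical
  intro N M q P G I k hD hk hI hIM w' w hw' hww hw4
  have hN := hD.pos
  obtain ⟨h0, ρ, C3, hh0, hρ, hS⟩ := h3 N q (w - (w' + w) / 2) hN (by linarith)
  refine ⟨h0, hh0, ?_⟩
  intro h h' hh hhh hh'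
  set r : ℝ := (w' + w) / 2 with hr
  set σ : ℝ := (h' + h) / 2 with hσ
  have hr0 : 0 < r := by linarith
  have hw'r : w' < r := by linarith
  have hrw : r < w := by linarith
  have hr4 : r < 1 / (4 * N) := by linarith
  have hhσ : h < σ := by linarith
  have hσh' : σ < h' := by linarith
  have hσ0 : 0 < σ := by linarith
  have hσh0 : σ ≤ h0 := by linarith
  have hsQ : Shape N (P ∪ pcl N I) G := hD.sh.union I
  have hsP' : Shape N (P ∪ pcl N (I ∪ {((k : ℕ) : ℤ)})) G := hD.sh.union _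
  set Q : Set ℤ := P ∪ pcl N I with hQ
  set P' : Set ℤ := P ∪ pcl N (I ∪ {((k : ℕ) : ℤ)}) with hP'
  have hIQ : I ⊆ Q := fun i hi => Or.inr (subset_pcl N I hi)
  have hUo : IsOpen (PU q (US N Q G w h)) := isOpen_PU q (isOpen_US hN Q G w h)
  -- pointwise facts
  have hcont : ∀ (τ : Fin q → Pc N) (ζ : Fin q → ℂ), (∀ j, ζ j ∈ cP N P' G r σ (τ j)) →
      ζ ∈ PU q (US N P' G w' h') := fun τ ζ hζ j => w5_cP_US hN hsP' hw' hw'r hr4 hσh' (τ j) (hζ j)
  have hSw : ∀ (τ : Fin q → Pc N) (z ζ : Fin q → ℂ), z ∈ PU q (US N Q G w h) →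
      (∀ j, ζ j ∈ cP N P' G r σ (τ j)) → ρ ≤ (Sw M τ z ζ).re := by
    intro τ z ζ hz hζ
    refine (hS M τ z ζ (fun j => ?_) (fun j => ?_) (w5_good hN hD.le hsQ.perP hIQ hI hIM hr0 τ hz hζ)).1
    · have := (hz j).1
      linarith
    · have := w5_im_cP (τ j) (hζ j)
      linarith
  have hSw0 : ∀ (τ : Fin q → Pc N) (z ζ : Fin q → ℂ), z ∈ PU q (US N Q G w h) →
      (∀ j, ζ j ∈ cP N P' G r σ (τ j)) → Sw M τ z ζ ≠ 0 := by
    intro τ z ζ hz hζ h5
    have := hSw τ z ζ hz hζ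
    rw [h5, Complex.zero_re] at this
    linarith
  set c : ℝ := min (π * (σ - h)) (2 * (w - r)) with hc
  have hc0 : 0 < c := lt_min (mul_pos Real.pi_pos (by linarith)) (by linarith)
  have hsin : ∀ (τ : Fin q → Pc N) (z ζ : Fin q → ℂ), z ∈ PU q (US N Q G w h) →
      (∀ j, ζ j ∈ cP N P' G r σ (τ j)) → ∀ j, τ j ≠ Sum.inr k → c ≤ ‖Complex.sin (π * (ζ j - z j))‖ :=
    fun τ z ζ hz hζ j hj => w5_sin_lower hN hD.sh hr0 hrw hhσ (τ j) hj (hz j) (hζ j)
  -- the integrand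
  have hK1 : ∀ F : (Fin q → ℂ) → ℂ, BO q (US N P' G w' h') F → ∀ τ : Fin q → Pc N,
      ContinuousOn (fun x : (Fin q → ℂ) × (Fin q → ℂ) => F x.2 * (Pw k τ x.1 x.2 / Sw M τ x.1 x.2) *
        ∏ j, kap (x.2 j - x.1 j)) (PU q (US N Q G w h) ×ˢ {ζ | ∀ j, ζ j ∈ cP N P' G r σ (τ j)}) := by
    intro F hF τ
    have e1 : (fun x : (Fin q → ℂ) × (Fin q → ℂ) => F x.2 * (Pw k τ x.1 x.2 / Sw M τ x.1 x.2) *
        ∏ j, kap (x.2 j - x.1 j)) = fun x => F x.2 * (Sw M τ x.1 x.2)⁻¹ *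
        ∏ j, w5_fac k (τ j) (x.1 j) (x.2 j) := funext fun x => w5_ker M k τ F x.1 x.2
    rw [e1]
    refine ContinuousOn.mul (ContinuousOn.mul ?_ ?_) ?_
    · exact hF.hol.continuousOn.comp continuousOn_snd fun x hx => hcont τ x.2 hx.2
    · exact (w5_continuous_Sw M τ).continuousOn.inv₀ fun x hx => hSw0 τ x.1 x.2 hx.1 hx.2
    · refine continuousOn_finsetProd _ fun j _ => ?_
      by_cases hj : τ j = Sum.inr k
      · have e2 : (fun x : (Fin q → ℂ) × (Fin q → ℂ) => w5_fac k (τ j) (x.1 j) (x.2 j))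
            = fun x => w5_reg (x.1 j - x.2 j) := by
          funext x
          simp only [w5_fac, hj, if_true]
        rw [e2]
        exact (w5_diff_reg.continuous.comp (((continuous_apply j).comp continuous_fst).sub
          ((continuous_apply j).comp continuous_snd))).continuousOn
      · have e2 : (fun x : (Fin q → ℂ) × (Fin q → ℂ) => w5_fac k (τ j) (x.1 j) (x.2 j))
            = fun x => kap (x.2 j - x.1 j) := by
          funext x
          simp only [w5_fac, hj, if_false]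
        rw [e2]
        intro x hx
        have h5 := hsin τ x.1 x.2 hx.1 hx.2 j hj
        have h6 : Complex.sin (π * (x.2 j - x.1 j)) ≠ 0 := by
          intro h7
          rw [h7, norm_zero] at h5
          linarith
        have h8 : ContinuousAt (fun x : (Fin q → ℂ) × (Fin q → ℂ) => x.2 j - x.1 j) x :=
          (((continuous_apply j).comp continuous_snd).sub ((continuous_apply j).comp continuous_fst)).continuousAt
        exact (ContinuousAt.comp (f := fun x : (Fin q → ℂ) × (Fin q → ℂ) => x.2 j - x.1 j)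
          (w5_diff_kap h6).continuousAt h8).continuousWithinAt
  intro F hF z hz τ
  have h6 : ContinuousOn (fun ξ : Fin q → ℂ => (z, ξ)) {ξ | ∀ j, ξ j ∈ cP N P' G r σ (τ j)} :=
    (continuous_const.prodMk continuous_id).continuousOn
  exact (hK1 F hF τ).comp h6 fun ξ hξ => ⟨hz, hξ⟩

end

end Pool.Agent.Helper67.DO
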